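import Pool.Agent.H89.F2.Cls

/-!
# Three and four sums of sets with slow growth or many solutions

Let `A, B ⊆ 𝔽₂ⁿ` be nonempty and `j ≥ 1`. Suppose that the equation `a + a' = b₁ + … + b_j` has at least
`|A| |B|^j / K` solutions in `A² × B^j` (at most `|A| |B|^j` are possible), or that `j = 2m` and
`|A + mB| ≤ K |A|`. Then `3A` contains an affine subspace of codimension at most
`2 (2K)^(2/j) log (2ⁿ/|B|) + 4K`, and `4A` contains a subspace `V` of codimension at most
`2 (2K)^(2/j) log (2ⁿ/|B|) + C (1 + log K)² (log (2 + log K))⁴` such that `A + A` contains 99% of a coset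
of `V`. So the bound `C log (1/α)` of the polynomial Bogolyubov conjecture is true for `3A`, if a nonempty
part `A'` of `A` is stable in this sense under a set `B` of density at least `α^M` with
`K ≤ min (e^(Mj), M (1 + log (1/α)))`, and it is true for `4A` and for `99%` of a coset in `A + A` for
`log K` up to about the square root of `log (1/α)`. More generally a bound `F` for three sums of all sets of density
at least `1/(2K)` can be used in the place of `4K`; a bound which is a power of `log (1/δ)` for sets of density `δ`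
allows `K = exp ((log (1/α))^c)` for three sums too. The case `j = 1` is that of the sets with many near-periods
`b`, that is, `|A' ∩ (A' + b)| ≥ |A'| / M` for at least `α^M 2ⁿ` elements `b`.

Proof. The characters `ψ` with `|B^(ψ)| ≥ (2K)^(-1/j) |B|` carry the proportion `1/(2K)` of the energy of `1_A`.
They are trivial on a subspace `V₀` of codimension `2 (2K)^(2/j) log (2ⁿ/|B|)` by Chang's theorem, so `A` has
density at least `1/(2K)` on a coset of `V₀`. In `V₀` a density increment argument is used for three sums, and the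
theorem of `SquareOfTheLogarithm` for four sums.
-/

set_option autoImplicit false
open scoped Pointwise

namespace Pool.Agent.Results.MP_c6cae0_co.GrowthAndEnergy

open Pool.Agent.H89.F2

/-- The number of the solutions of `a + a' = b₁ + … + b_j` with `a, a' ∈ A` and `b₁, …, b_j ∈ B`. -/
def solutions {n : ℕ} (A B : Finset (Fin n → ZMod 2)) (j : ℕ) : ℕ :=
  (((A ×ˢ A) ×ˢ Fintype.piFinset fun _ : Fin j => B).filter fun q => q.1.1 + q.1.2 = ∑ i, q.2 i).card

/-- The number of the elements of `A + mB`, the set of the sums `a + b₁ + … + b_m`. -/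
def growth {n : ℕ} (A B : Finset (Fin n → ZMod 2)) (m : ℕ) : ℕ :=
  ((A ×ˢ Fintype.piFinset fun _ : Fin m => B).image fun p => p.1 + ∑ i, p.2 i).card

/-- There are at least `|A| |B|^j / K` solutions of `a + a' = b₁ + … + b_j`, or `j = 2m` and
`|A + mB| ≤ K |A|`. -/
def Stable {n : ℕ} (K : ℝ) (j : ℕ) (A B : Finset (Fin n → ZMod 2)) : Prop :=
  (A.card : ℝ) * (B.card : ℝ) ^ j ≤ K * (solutions A B j : ℝ) ∨
    ∃ m : ℕ, j = 2 * m ∧ (growth A B m : ℝ) ≤ K * (A.card : ℝ)

/-- The elements `b` with `|A ∩ (A + b)| ≥ |A| / M`. -/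
noncomputable def nearPeriods {n : ℕ} (M : ℝ) (A : Finset (Fin n → ZMod 2)) : Finset (Fin n → ZMod 2) :=
  open Classical in
  Finset.univ.filter fun b => (A.card : ℝ) ≤ M * ((A.filter fun a => a + b ∈ A).card : ℝ)

/-- All but a proportion `η` of the coset `t + V` is in `W`, for some `t`. -/
def AlmostContainsCoset {n : ℕ} (η : ℝ) (W : Finset (Fin n → ZMod 2)) (V : Submodule (ZMod 2) (Fin n → ZMod 2)) :
    Prop :=
  ∃ t : Fin n → ZMod 2, (1 - η) * ((V : Set (Fin n → ZMod 2)).ncard : ℝ) ≤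
    ({v : Fin n → ZMod 2 | v ∈ V ∧ t + v ∈ W}.ncard : ℝ)

/-- `A + A + A` contains an affine subspace of codimension at most `c`. -/
def ThreeSums {n : ℕ} (A : Finset (Fin n → ZMod 2)) (c : ℝ) : Prop :=
  ∃ (x : Fin n → ZMod 2) (V : Submodule (ZMod 2) (Fin n → ZMod 2)),
    (n : ℝ) - (Module.finrank (ZMod 2) V : ℝ) ≤ c ∧ ∀ v ∈ V, x + v ∈ A + A + A

/-- For all `m`, the set `D + D + D` contains an affine subspace of codimension at most `c` for all sets `D ⊆ 𝔽₂ᵐ` of
density at least `δ`. -/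
def AllDense (δ c : ℝ) : Prop :=
  ∀ (m : ℕ) (D : Finset (Fin m → ZMod 2)), δ * (2 : ℝ) ^ m ≤ (D.card : ℝ) → ThreeSums D c

/-- There is a subspace `V` of codimension at most `c` in `A + A + A + A` such that `A + A` contains 99% of a coset
of `V`. -/
def FourSums {n : ℕ} (A : Finset (Fin n → ZMod 2)) (c : ℝ) : Prop :=
  ∃ V : Submodule (ZMod 2) (Fin n → ZMod 2), (n : ℝ) - (Module.finrank (ZMod 2) V : ℝ) ≤ c ∧
    (∀ v ∈ V, v ∈ A + A + A + A) ∧ AlmostContainsCoset (1 / 100) (A + A) V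

theorem almost_of {n : ℕ} (η : ℝ) (W : Finset (Fin n → ZMod 2))
    (V : Submodule (ZMod 2) (Fin n → ZMod 2)) (t : Fin n → ZMod 2)
    (h : (1 - η) * (Nat.card V : ℝ) ≤ (Nat.card {v : V // t + v ∈ W} : ℝ)) : AlmostContainsCoset η W V := by
  classical
  refine ⟨t, ?_⟩
  have e1 : (V : Set (Fin n → ZMod 2)).ncard = Nat.card V := rfl
  have e2 : ({v : Fin n → ZMod 2 | v ∈ V ∧ t + v ∈ W}.ncard) = Nat.card {v : V // t + v ∈ W} := by
    have h1 : {v : Fin n → ZMod 2 | v ∈ V ∧ t + v ∈ W} = Subtype.val '' {v : V | t + v ∈ W} := by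
      ext v
      constructor
      · rintro ⟨h2, h3⟩
        exact ⟨⟨v, h2⟩, h3, rfl⟩
      · rintro ⟨w, hw, rfl⟩
        exact ⟨w.2, hw⟩
    rw [h1, Set.ncard_image_of_injective _ Subtype.val_injective]
    rfl
  rw [e1, e2]
  exact h

theorem almost_mono {n : ℕ} (η : ℝ) (W W' : Finset (Fin n → ZMod 2)) (hW : W ⊆ W')
    (V : Submodule (ZMod 2) (Fin n → ZMod 2)) (h : AlmostContainsCoset η W V) : AlmostContainsCoset η W' V := by
  obtain ⟨t, ht⟩ := h
  refine ⟨t, ht.trans ?_⟩
  have h1 := Set.ncard_le_ncard (s := {v : Fin n → ZMod 2 | v ∈ V ∧ t + v ∈ W})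
    (t := {v : Fin n → ZMod 2 | v ∈ V ∧ t + v ∈ W'}) (fun v hv => ⟨hv.1, hW hv.2⟩) (Set.toFinite _)
  exact_mod_cast h1

theorem codim_of {n : ℕ} (V : Submodule (ZMod 2) (Fin n → ZMod 2)) (r : ℕ)
    (h : Fintype.card (Fin n → ZMod 2) ≤ 2 ^ r * Nat.card V) :
    (n : ℝ) - (Module.finrank (ZMod 2) V : ℝ) ≤ r := by
  have h0 : Nat.card V = 2 ^ Module.finrank (ZMod 2) V := by
    have h := Module.natCard_eq_pow_finrank (K := ZMod 2) (V := V)
    rw [h, Nat.card_eq_fintype_card, ZMod.card]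
  rw [h0, Fintype.card_fun, ZMod.card, Fintype.card_fin, ← pow_add] at h
  have h1 := (Nat.pow_le_pow_iff_right (by norm_num)).1 h
  have h2 : (n : ℝ) ≤ r + Module.finrank (ZMod 2) V := by exact_mod_cast h1
  linarith

/-- more than half of the group -/
theorem full {n : ℕ} (A : Finset (Fin n → ZMod 2)) (h : (1 / 2 : ℝ) * (2 : ℝ) ^ n < A.card) (x : Fin n → ZMod 2) :
    x ∈ A + A := by
  classical
  have h1 : ¬ Disjoint A (A.image fun a => x + a) := by
    intro hd
    have h2 := Finset.card_union_of_disjoint hd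
    rw [Finset.card_image_of_injective _ (add_right_injective x)] at h2
    have h3 := Finset.card_le_univ (A ∪ A.image fun a => x + a)
    rw [h2, Fintype.card_fun, ZMod.card, Fintype.card_fin] at h3
    have h4 : ((A.card : ℝ) + A.card) ≤ (2 : ℝ) ^ n := by exact_mod_cast h3
    linarith
  rw [Finset.not_disjoint_iff] at h1
  obtain ⟨a, ha, ha'⟩ := h1
  rw [Finset.mem_image] at ha'
  obtain ⟨b, hb, hab⟩ := ha'
  rw [Finset.mem_add]
  refine ⟨a, ha, b, hb, ?_⟩
  rw [← hab, add_assoc, add_self2, add_zero]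

theorem card_group (n : ℕ) : (Fintype.card (Fin n → ZMod 2) : ℝ) = 2 ^ n := by
  rw [Fintype.card_fun, ZMod.card, Fintype.card_fin]
  push_cast
  rfl

/-- the number `K` is positive -/
theorem stable_pos {n : ℕ} {K : ℝ} {j : ℕ} {A B : Finset (Fin n → ZMod 2)} (hA : A.Nonempty) (hB : B.Nonempty)
    (h : Stable K j A B) : 0 < K := by
  have ha : (0 : ℝ) < A.card := by exact_mod_cast hA.card_pos
  have hb : (0 : ℝ) < B.card := by exact_mod_cast hB.card_pos
  rcases h with h | ⟨m, -, h⟩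
  · have h1 : 0 < K * (solutions A B j : ℝ) := lt_of_lt_of_le (by positivity) h
    exact pos_of_mul_pos_left h1 (Nat.cast_nonneg _)
  · have h1 : 0 < growth A B m := by
      unfold growth
      rw [Finset.card_pos, Finset.image_nonempty]
      refine hA.product ?_
      obtain ⟨b, hb'⟩ := hB
      exact ⟨fun _ => b, Fintype.mem_piFinset.2 fun _ => hb'⟩
    have h2 : (0 : ℝ) < growth A B m := by exact_mod_cast h1
    exact pos_of_mul_pos_left (h2.trans_le h) ha.le

/-- the form of the hypothesis in terms of characters -/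
theorem stable_hat {n : ℕ} {K : ℝ} {j : ℕ} {A B : Finset (Fin n → ZMod 2)} (hA : A.Nonempty) (hB : B.Nonempty)
    (h : Stable K j A B) :
    (Fintype.card (Fin n → ZMod 2) : ℝ) * (A.card * (B.card : ℝ) ^ j) ≤
      K * ∑ ψ : AddChar (Fin n → ZMod 2) ℂ, ‖∑ x ∈ A, ψ x‖ ^ 2 * ‖∑ x ∈ B, ψ x‖ ^ j := by
  have hK := stable_pos hA hB h
  rcases h with h | ⟨m, rfl, h⟩
  · calc (Fintype.card (Fin n → ZMod 2) : ℝ) * (A.card * (B.card : ℝ) ^ j) ≤
        Fintype.card (Fin n → ZMod 2) * (K * (solutions A B j : ℝ)) :=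
          mul_le_mul_of_nonneg_left h (Nat.cast_nonneg _)
      _ = K * (Fintype.card (Fin n → ZMod 2) * (solutions A B j : ℝ)) := by ring
      _ ≤ _ := mul_le_mul_of_nonneg_left (hat_sol A B j) hK.le
  · exact hat_growth A B hA m K hK h

/-- the reduction to dense sets -/
theorem three_of_dense {n : ℕ} (j : ℕ) (K : ℝ) (A B : Finset (Fin n → ZMod 2)) (hj : 1 ≤ j) (hA : A.Nonempty)
    (hB : B.Nonempty) (hS : Stable K j A B) (F : ℝ) (hF : AllDense (1 / (2 * K)) F) :
    ThreeSums A (2 * (2 * K) ^ ((2 : ℝ) / j) * Real.log ((2 : ℝ) ^ n / B.card) + F) := by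
  classical
  have hK := stable_pos hA hB hS
  obtain ⟨Λ, hΛ, a₀, ha₀, hd⟩ := core A B hA hB j hj K hK (stable_hat hA hB hS)
  rw [card_group] at hΛ
  obtain ⟨V, hV⟩ : ∃ V : Submodule (ZMod 2) (Fin n → ZMod 2), V = ann Λ := ⟨_, rfl⟩
  obtain ⟨m, hm⟩ : ∃ m, m = Module.finrank (ZMod 2) V := ⟨_, rfl⟩
  obtain ⟨e⟩ : Nonempty (V ≃ₗ[ZMod 2] (Fin m → ZMod 2)) := by
    rw [hm]
    exact ⟨(Module.finBasis (ZMod 2) V).equivFun⟩
  obtain ⟨D, hD⟩ : ∃ D : Finset V, D = Finset.univ.filter fun v : V => a₀ + (v : Fin n → ZMod 2) ∈ A := ⟨_, rfl⟩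
  have hVc : Fintype.card V = (Finset.univ.filter fun x : Fin n → ZMod 2 => x ∈ ann Λ).card := by
    rw [hV]
    exact Fintype.card_subtype _
  have hDc : D.card = (Finset.univ.filter fun x : Fin n → ZMod 2 => x ∈ ann Λ ∧ a₀ + x ∈ A).card := by
    refine Finset.card_bij (fun (w : V) _ => (w : Fin n → ZMod 2)) ?_ ?_ ?_
    · intro w hw
      rw [hD, Finset.mem_filter] at hw
      rw [Finset.mem_filter]
      refine ⟨Finset.mem_univ _, ?_, hw.2⟩
      rw [← hV]
      exact w.2
    · intro w _ w' _ hww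
      exact Subtype.ext hww
    · intro x hx
      rw [Finset.mem_filter] at hx
      have hxV : x ∈ V := by
        rw [hV]
        exact hx.2.1
      refine ⟨⟨x, hxV⟩, ?_, rfl⟩
      rw [hD, Finset.mem_filter]
      exact ⟨Finset.mem_univ _, hx.2.2⟩
  rw [← hVc, ← hDc] at hd
  have hcm : (Fintype.card V : ℝ) = 2 ^ m := by
    rw [Fintype.card_congr e.toEquiv, card_group]
  obtain ⟨x, U, hU, hs⟩ := hF m (D.map e.toEquiv.toEmbedding) (by
    rw [Finset.card_map, ← hcm, div_mul_eq_mul_div, one_mul, div_le_iff₀ (by positivity)]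
    linarith)
  obtain ⟨f, hf⟩ : ∃ f : (Fin m → ZMod 2) →ₗ[ZMod 2] (Fin n → ZMod 2), f = V.subtype ∘ₗ e.symm.toLinearMap :=
    ⟨_, rfl⟩
  have hfa : ∀ u, f u = ((e.symm u : V) : Fin n → ZMod 2) := by
    intro u
    rw [hf]
    rfl
  have hfi : Function.Injective f := by
    intro u v huv
    rw [hfa, hfa] at huv
    exact e.symm.injective (Subtype.ext huv)
  have hfD : ∀ d ∈ D.map e.toEquiv.toEmbedding, a₀ + f d ∈ A := by
    intro d hd'
    rw [Finset.mem_map] at hd'
    obtain ⟨v, hv, rfl⟩ := hd'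
    rw [hD, Finset.mem_filter] at hv
    rw [hfa]
    have h1 : e.symm (e.toEquiv.toEmbedding v) = v := e.symm_apply_apply v
    rw [h1]
    exact hv.2
  refine ⟨a₀ + f x, U.map f, ?_, ?_⟩
  · have h1 : Module.finrank (ZMod 2) (U.map f) = Module.finrank (ZMod 2) U :=
      (Submodule.equivMapOfInjective f hfi U).finrank_eq.symm
    have h2 : (n : ℝ) - (Module.finrank (ZMod 2) V : ℝ) ≤ Λ.card := by
      apply codim_of V Λ.card
      have h3 := card_ann Λ
      rw [Nat.card_eq_fintype_card, mul_comm]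
      rw [hVc]
      exact h3
    rw [h1]
    rw [← hm] at h2
    linarith
  · intro v hv
    rw [Submodule.mem_map] at hv
    obtain ⟨u, hu, rfl⟩ := hv
    obtain ⟨s, hs', c, hc, h1⟩ := Finset.mem_add.1 (hs u hu)
    obtain ⟨a, ha, b, hb, h2⟩ := Finset.mem_add.1 hs'
    have h3 : a₀ + f x + f u = (a₀ + f a) + (a₀ + f b) + (a₀ + f c) := by
      rw [add_assoc, ← map_add, ← h1, ← h2, map_add, map_add]
      have h4 : a₀ + f a + (a₀ + f b) + (a₀ + f c) = a₀ + (a₀ + a₀) + (f a + f b + f c) := by abel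
      rw [h4, add_self2, add_zero]
    rw [h3]
    exact Finset.add_mem_add (Finset.add_mem_add (hfD a ha) (hfD b hb)) (hfD c hc)

/-- the bound in the class -/
theorem class_bound (M K l lb : ℝ) (j : ℕ) (hM : 1 ≤ M) (hj : 1 ≤ j) (hK : 0 < K)
    (hKM : K ≤ Real.exp (M * j)) (hl : 0 ≤ l) (hlb : lb ≤ M * l) :
    2 * (2 * K) ^ ((2 : ℝ) / j) * lb ≤ 8 * M * Real.exp (2 * M) * l := by
  have hj0 : (0 : ℝ) < j := by
    have : 0 < j := hj
    exact_mod_cast this
  have hj1 : (1 : ℝ) ≤ j := by exact_mod_cast hj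
  have h1 : (2 * K) ^ ((2 : ℝ) / j) ≤ 4 * Real.exp (2 * M) := by
    calc (2 * K) ^ ((2 : ℝ) / j) ≤ (2 * Real.exp (M * j)) ^ ((2 : ℝ) / j) := by
          apply Real.rpow_le_rpow (by positivity) _ (by positivity)
          linarith
      _ = 2 ^ ((2 : ℝ) / j) * Real.exp (M * j) ^ ((2 : ℝ) / j) := Real.mul_rpow (by norm_num) (Real.exp_pos _).le
      _ = 2 ^ ((2 : ℝ) / j) * Real.exp (2 * M) := by
          rw [← Real.exp_mul]
          congr 2
          field_simp
      _ ≤ 4 * Real.exp (2 * M) := by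
          apply mul_le_mul_of_nonneg_right _ (Real.exp_pos _).le
          have h2 : (2 : ℝ) / j ≤ 2 := by
            rw [div_le_iff₀ hj0]
            linarith
          calc (2 : ℝ) ^ ((2 : ℝ) / j) ≤ 2 ^ (2 : ℝ) := Real.rpow_le_rpow_of_exponent_le (by norm_num) h2
            _ = 4 := by
                rw [Real.rpow_two]
                norm_num
  have h3 : 0 ≤ (2 * K) ^ ((2 : ℝ) / j) := by positivity
  calc 2 * (2 * K) ^ ((2 : ℝ) / j) * lb ≤ 2 * (2 * K) ^ ((2 : ℝ) / j) * (M * l) :=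
        mul_le_mul_of_nonneg_left hlb (by positivity)
    _ ≤ 2 * (4 * Real.exp (2 * M)) * (M * l) := by
        apply mul_le_mul_of_nonneg_right _ (by positivity)
        linarith
    _ = _ := by ring

/-- sets with many near-periods are stable -/
theorem stable_near {n : ℕ} (M : ℝ) (hM : 0 < M) (A : Finset (Fin n → ZMod 2)) :
    Stable M 1 A (nearPeriods M A) := by
  classical
  left
  obtain ⟨B, hB⟩ : ∃ B, B = nearPeriods M A := ⟨_, rfl⟩
  rw [← hB, pow_one]
  have h1 : ∑ b ∈ B, (A.filter fun a => a + b ∈ A).card ≤ solutions A B 1 := by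
    unfold solutions
    rw [← Finset.card_sigma]
    refine Finset.card_le_card_of_injOn (fun p => ((p.2, p.2 + p.1), fun _ => p.1)) ?_ ?_
    · rintro ⟨b, a⟩ hp
      rw [Finset.mem_coe, Finset.mem_sigma, Finset.mem_filter] at hp
      rw [Finset.mem_coe, Finset.mem_filter, Finset.mem_product, Finset.mem_product, Fintype.mem_piFinset]
      refine ⟨⟨⟨hp.2.1, hp.2.2⟩, fun _ => hp.1⟩, ?_⟩
      show a + (a + b) = ∑ _i : Fin 1, b
      rw [← add_assoc, add_self2, zero_add]
      simp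
    · rintro ⟨b, a⟩ _ ⟨b', a'⟩ _ h
      simp only [Prod.mk.injEq] at h
      obtain ⟨⟨h2, -⟩, h3⟩ := h
      have h4 : b = b' := congrFun h3 0
      subst h4
      subst h2
      rfl
  have h2 : (A.card : ℝ) * B.card ≤ M * ∑ b ∈ B, ((A.filter fun a => a + b ∈ A).card : ℝ) := by
    rw [mul_comm, ← nsmul_eq_mul, ← Finset.sum_const, Finset.mul_sum]
    apply Finset.sum_le_sum
    intro b hb
    rw [hB] at hb
    unfold nearPeriods at hb
    exact (Finset.mem_filter.1 hb).2
  refine h2.trans (mul_le_mul_of_nonneg_left ?_ hM.le)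
  exact_mod_cast h1

/-- **Three and four sums of sets with slow growth or many solutions.** -/
theorem result :
    -- (1) sets `A` which are stable under a set `B`
    (∃ C : ℝ, 0 < C ∧ ∀ (n j : ℕ) (K : ℝ) (A B : Finset (Fin n → ZMod 2)), 1 ≤ j → A.Nonempty → B.Nonempty →
      Stable K j A B →
      ThreeSums A (2 * (2 * K) ^ ((2 : ℝ) / j) * Real.log ((2 : ℝ) ^ n / B.card) + 4 * K) ∧
      (∀ F : ℝ, AllDense (1 / (2 * K)) F →
        ThreeSums A (2 * (2 * K) ^ ((2 : ℝ) / j) * Real.log ((2 : ℝ) ^ n / B.card) + F)) ∧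
      FourSums A (2 * (2 * K) ^ ((2 : ℝ) / j) * Real.log ((2 : ℝ) ^ n / B.card) +
        C * ((1 + Real.log (2 * K)) ^ 2 * Real.log (2 + Real.log (2 * K)) ^ 4))) ∧
    ∀ M : ℝ, 1 ≤ M → ∃ C : ℝ, 0 < C ∧ ∀ (n : ℕ) (α : ℝ), 0 < α → α ≤ 1 → ∀ A : Finset (Fin n → ZMod 2),
      α * (2 : ℝ) ^ n ≤ (A.card : ℝ) → ∀ A' ⊆ A, A'.Nonempty →
      -- (2) the bounds `C log (1/α)` of the conjecture
      (∀ B : Finset (Fin n → ZMod 2), α ^ M * (2 : ℝ) ^ n ≤ (B.card : ℝ) → ∀ (j : ℕ) (K : ℝ), 1 ≤ j →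
        Stable K j A' B → K ≤ Real.exp (M * j) →
        (K ≤ M * (1 + Real.log (1 / α)) ∨ AllDense (1 / (2 * K)) (M * (1 + Real.log (1 / α))) →
          ThreeSums A (C * Real.log (1 / α))) ∧
        ((1 + Real.log (2 * K)) ^ 2 * Real.log (2 + Real.log (2 * K)) ^ 4 ≤ M * (1 + Real.log (1 / α)) →
          FourSums A (C * Real.log (1 / α)))) ∧
      -- (3) sets a part of which has many near-periods
      (α ^ M * (2 : ℝ) ^ n ≤ ((nearPeriods M A').card : ℝ) → ThreeSums A (C * Real.log (1 / α))) := by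
  classical
  have key3 : ∀ (n j : ℕ) (K : ℝ) (A B : Finset (Fin n → ZMod 2)), 1 ≤ j → A.Nonempty → B.Nonempty →
      Stable K j A B → ThreeSums A (2 * (2 * K) ^ ((2 : ℝ) / j) * Real.log ((2 : ℝ) ^ n / B.card) + 4 * K) := by
    intro n j K A B hj hA hB hS
    obtain ⟨U, y, r, hr, hU, hs⟩ := three_sums A B hA hB j hj K (stable_pos hA hB hS) (stable_hat hA hB hS)
    rw [card_group] at hr
    refine ⟨y, U, (codim_of U r hU).trans hr, ?_⟩
    intro v hv
    obtain ⟨a, ha, b, hb, c, hc, h⟩ := hs v hv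
    rw [h]
    exact Finset.add_mem_add (Finset.add_mem_add ha hb) hc
  have key4 : ∀ (n j : ℕ) (K : ℝ) (A B : Finset (Fin n → ZMod 2)), 1 ≤ j → A.Nonempty → B.Nonempty →
      Stable K j A B → FourSums A (2 * (2 * K) ^ ((2 : ℝ) / j) * Real.log ((2 : ℝ) ^ n / B.card) +
        10 ^ 40 * ((1 + Real.log (2 * K)) ^ 2 * Real.log (2 + Real.log (2 * K)) ^ 4)) := by
    intro n j K A B hj hA hB hS
    obtain ⟨-, U, r, hr, hU, hs, t, ht⟩ :=
      four_sums A B hA hB j hj K (stable_pos hA hB hS) (stable_hat hA hB hS)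
    rw [card_group] at hr
    refine ⟨U, (codim_of U r hU).trans hr, ?_, almost_of _ _ _ t ht⟩
    intro v hv
    obtain ⟨a, ha, b, hb, c, hc, d, hd, h⟩ := hs v hv
    rw [h]
    exact Finset.add_mem_add (Finset.add_mem_add (Finset.add_mem_add ha hb) hc) hd
  refine ⟨⟨10 ^ 40, by positivity, fun n j K A B hj hA hB hS =>
    ⟨key3 n j K A B hj hA hB hS, three_of_dense j K A B hj hA hB hS, key4 n j K A B hj hA hB hS⟩⟩, ?_⟩
  intro M hM
  refine ⟨8 * M * Real.exp (2 * M) + 10 ^ 41 * M, by positivity, ?_⟩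
  intro n α hα0 hα1 A hA A' hA' hAne
  obtain ⟨l, hl⟩ : ∃ l : ℝ, l = Real.log (1 / α) := ⟨_, rfl⟩
  rw [← hl]
  have hl0 : 0 ≤ l := by
    rw [hl]
    apply Real.log_nonneg
    rw [le_div_iff₀ hα0]
    linarith
  have hpow : (0 : ℝ) < (2 : ℝ) ^ n := by positivity
  have hCpos : 0 ≤ (8 * M * Real.exp (2 * M) + 10 ^ 41 * M) * l := by positivity
  have hmain : ∀ B : Finset (Fin n → ZMod 2), α ^ M * (2 : ℝ) ^ n ≤ (B.card : ℝ) → ∀ (j : ℕ) (K : ℝ), 1 ≤ j →
      Stable K j A' B → K ≤ Real.exp (M * j) →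
      (K ≤ M * (1 + l) ∨ AllDense (1 / (2 * K)) (M * (1 + l)) →
        ThreeSums A ((8 * M * Real.exp (2 * M) + 10 ^ 41 * M) * l)) ∧
      ((1 + Real.log (2 * K)) ^ 2 * Real.log (2 + Real.log (2 * K)) ^ 4 ≤ M * (1 + l) →
        FourSums A ((8 * M * Real.exp (2 * M) + 10 ^ 41 * M) * l)) := by
    intro B hB j K hj hS hKM
    rcases lt_or_ge (1 / 2 : ℝ) α with hc | hc
    · -- more than half
      have hfull : ∀ x : Fin n → ZMod 2, x ∈ A + A := fun x => full A (lt_of_lt_of_le (by
        apply mul_lt_mul_of_pos_right hc hpow) hA) x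
      obtain ⟨a, ha⟩ := hAne.mono hA'
      refine ⟨fun _ => ⟨0, ⊤, ?_, ?_⟩, fun _ => ⟨⊤, ?_, ?_, ?_⟩⟩
      · rw [finrank_top, Module.finrank_fin_fun, sub_self]
        exact hCpos
      · intro v _
        have h1 : (0 : Fin n → ZMod 2) + v = (v + a) + a := by
          rw [zero_add, add_assoc, add_self2, add_zero]
        rw [h1]
        exact Finset.add_mem_add (hfull _) ha
      · rw [finrank_top, Module.finrank_fin_fun, sub_self]
        exact hCpos
      · intro v _
        have h1 : v = v + a + a := by rw [add_assoc, add_self2, add_zero]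
        rw [h1]
        exact Finset.add_mem_add (Finset.add_mem_add (hfull v) ha) ha
      · refine ⟨0, ?_⟩
        have h1 : {v : Fin n → ZMod 2 | v ∈ (⊤ : Submodule (ZMod 2) (Fin n → ZMod 2)) ∧ 0 + v ∈ A + A} =
            ((⊤ : Submodule (ZMod 2) (Fin n → ZMod 2)) : Set (Fin n → ZMod 2)) := by
          ext v
          constructor
          · intro _
            exact Submodule.mem_top
          · intro _
            exact ⟨Submodule.mem_top, hfull _⟩
        rw [h1]
        have h2 : (0 : ℝ) ≤ (((⊤ : Submodule (ZMod 2) (Fin n → ZMod 2)) : Set (Fin n → ZMod 2)).ncard : ℝ) :=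
          Nat.cast_nonneg _
        nlinarith
    · have hl1 : 0.69 ≤ l := by
        have h1 : (2 : ℝ) ≤ 1 / α := by
          rw [le_div_iff₀ hα0]
          linarith
        have h2 := Real.log_le_log (by norm_num) h1
        rw [← hl] at h2
        linarith [Real.log_two_gt_d9]
      have h5 : 1 + l ≤ 2.5 * l := by linarith
      have hαM : (0 : ℝ) < α ^ M := Real.rpow_pos_of_pos hα0 M
      have hBpos : (0 : ℝ) < B.card := lt_of_lt_of_le (by positivity) hB
      have hBne : B.Nonempty := by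
        rw [← Finset.card_pos]
        exact_mod_cast hBpos
      have hlb : Real.log ((2 : ℝ) ^ n / B.card) ≤ M * l := by
        have h1 : (2 : ℝ) ^ n / B.card ≤ (1 / α) ^ M := by
          rw [Real.div_rpow (by norm_num) hα0.le, Real.one_rpow, div_le_div_iff₀ hBpos hαM]
          linarith
        have h2 := Real.log_le_log (by positivity) h1
        rw [Real.log_rpow (by positivity), ← hl] at h2
        exact h2
      have hb := class_bound M K l _ j hM hj (stable_pos hAne hBne hS) hKM hl0 hlb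
      refine ⟨fun hK => ?_, fun hK => ?_⟩
      · have h9 : M * (1 + l) ≤ M * (2.5 * l) := mul_le_mul_of_nonneg_left h5 (by linarith)
        have h10 : 0 ≤ M * l := by positivity
        rcases hK with hK | hK
        · obtain ⟨x, V, h6, h7⟩ := key3 n j K A' B hj hAne hBne hS
          refine ⟨x, V, ?_, fun v hv => ?_⟩
          · have h8 : 4 * K ≤ 10 ^ 41 * M * l := by nlinarith
            linarith
          · exact Finset.add_subset_add (Finset.add_subset_add hA' hA') hA' (h7 v hv)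
        · obtain ⟨x, V, h6, h7⟩ := three_of_dense j K A' B hj hAne hBne hS _ hK
          refine ⟨x, V, ?_, fun v hv => ?_⟩
          · have h8 : M * (1 + l) ≤ 10 ^ 41 * M * l := by nlinarith
            linarith
          · exact Finset.add_subset_add (Finset.add_subset_add hA' hA') hA' (h7 v hv)
      · obtain ⟨V, h6, h7, h8⟩ := key4 n j K A' B hj hAne hBne hS
        refine ⟨V, ?_, fun v hv => ?_, almost_mono _ _ _ (Finset.add_subset_add hA' hA') V h8⟩
        · have h9 : 10 ^ 40 * ((1 + Real.log (2 * K)) ^ 2 * Real.log (2 + Real.log (2 * K)) ^ 4) ≤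
              10 ^ 41 * M * l := by
            have h9 : M * (1 + l) ≤ M * (2.5 * l) := mul_le_mul_of_nonneg_left h5 (by linarith)
            have h10 : 0 ≤ M * l := by positivity
            nlinarith
          linarith
        · exact Finset.add_subset_add (Finset.add_subset_add (Finset.add_subset_add hA' hA') hA') hA' (h7 v hv)
  refine ⟨hmain, fun hB => ?_⟩
  refine (hmain (nearPeriods M A') hB 1 M le_rfl (stable_near M (by linarith) A') ?_).1 (Or.inl ?_)
  · rw [Nat.cast_one, mul_one]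
    have := Real.add_one_le_exp M
    linarith
  · nlinarith

end Pool.Agent.Results.MP_c6cae0_co.GrowthAndEnergy
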