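import Pool.Agent.H89.F2.Mult

/-!
# Affine subspaces of codimension `(1 + ℓ/k) ℓ (log ℓ)^O(1)` in `kA`, for all `k ≥ 4`

Let `A ⊆ 𝔽₂ⁿ` have density at least `α`, let `ℓ = log (1/α)` and `k ≥ 4`. The set `kA` contains an affine subspace of
codimension at most `C (1 + ℓ/k) ℓ m`, where `m` is the smaller one of `1 + ℓ/k` and `(log (2 + ℓ/k))³ log (2 + ℓ)`; it
is a linear subspace if `k` is even. The codimension is `O(ℓ)` for `k ≥ c ℓ`, and at most
`(ℓ²/k) (log ℓ)^O(1)` for smaller `k`.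

Proof. Among the sets `jA`, `j < ⌊k/2⌋`, there is one with `|(j + 1) A| ≤ e^(O(ℓ/k)) |jA|`. The theorem for two sets
`X = A` and `Y = jA` gives the subspace in `2 (X + Y)`: the sampling argument of Croot and Sisask is run with the growth
of the Shannon entropy in place of the growth of sets, and with samples which control level sets
`{z : P_(y ∈ P) (y + z ∈ X + Y) ≥ θ}`, at a cost of `b_X b_Y (log b_Y)³ log b` for `b_X = ℓ`, `b_Y = O(1 + ℓ/k)`. The
first term of the minimum comes from an argument by moments (`Pool.Agent.H89.EN`).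
-/

set_option autoImplicit false
open scoped Pointwise

namespace Pool.Agent.Results.MP_c6cae0_co.HigherSumsets

open Pool.Agent.H89.F2

/-- The set `kA` of the sums of `k` elements of `A`. -/
def kSums {n : ℕ} (A : Finset (Fin n → ZMod 2)) (k : ℕ) : Set (Fin n → ZMod 2) :=
  {x | ∃ a : Fin k → Fin n → ZMod 2, (∀ i, a i ∈ A) ∧ x = ∑ i, a i}

theorem mem_nsmul' {n : ℕ} (B : Finset (Fin n → ZMod 2)) (m : ℕ) (x : Fin n → ZMod 2) (hx : x ∈ m • B) :
    x ∈ kSums B m := by
  induction m generalizing x with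
  | zero =>
    rw [zero_nsmul, Finset.mem_zero] at hx
    exact ⟨fun i => i.elim0, fun i => i.elim0, by rw [hx]; simp⟩
  | succ m ih =>
    rw [succ_nsmul, Finset.mem_add] at hx
    obtain ⟨y, hy, z, hz, rfl⟩ := hx
    obtain ⟨b, hb, rfl⟩ := ih y hy
    refine ⟨Fin.snoc b z, ?_, ?_⟩
    · intro i
      refine Fin.lastCases ?_ (fun i => ?_) i
      · rw [Fin.snoc_last]; exact hz
      · rw [Fin.snoc_castSucc]; exact hb i
    · rw [Fin.sum_univ_castSucc, Fin.snoc_last]
      simp only [Fin.snoc_castSucc]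

theorem codim_of {n : ℕ} (V : Submodule (ZMod 2) (Fin n → ZMod 2)) (r : ℕ)
    (h : Fintype.card (Fin n → ZMod 2) ≤ 2 ^ r * Nat.card V) :
    (n : ℝ) - (Module.finrank (ZMod 2) V : ℝ) ≤ r := by
  have h0 : Nat.card V = 2 ^ Module.finrank (ZMod 2) V := by
    have h := Module.natCard_eq_pow_finrank (K := ZMod 2) (V := V)
    rw [h, Nat.card_eq_fintype_card, ZMod.card]
  rw [h0, Fintype.card_fun, ZMod.card, Fintype.card_fin, ← pow_add] at h
  have h1 := (Nat.pow_le_pow_iff_right (by norm_num)).1 h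
  have h2 : (n : ℝ) ≤ r + Module.finrank (ZMod 2) V := by exact_mod_cast h1
  linarith

/-- more than half of the group -/
theorem full {n : ℕ} (A : Finset (Fin n → ZMod 2)) (h : (1 / 2 : ℝ) * (2 : ℝ) ^ n < A.card) (x : Fin n → ZMod 2) :
    x ∈ A + A := by
  classical
  have h1 : ¬ Disjoint A (A.image fun a => x + a) := by
    intro hd
    have h2 := Finset.card_union_of_disjoint hd
    rw [Finset.card_image_of_injective _ (add_right_injective x)] at h2
    have h3 := Finset.card_le_univ (A ∪ A.image fun a => x + a)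
    rw [h2, Fintype.card_fun, ZMod.card, Fintype.card_fin] at h3
    have h4 : ((A.card : ℝ) + A.card) ≤ (2 : ℝ) ^ n := by exact_mod_cast h3
    linarith
  rw [Finset.not_disjoint_iff] at h1
  obtain ⟨a, ha, ha'⟩ := h1
  rw [Finset.mem_image] at ha'
  obtain ⟨b, hb, hab⟩ := ha'
  rw [Finset.mem_add]
  refine ⟨a, ha, b, hb, ?_⟩
  rw [← hab, add_assoc, add_self2, add_zero]

theorem even_nsmul {n : ℕ} (a : Fin n → ZMod 2) (m : ℕ) (hm : Even m) : m • a = 0 := by
  obtain ⟨i, rfl⟩ := hm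
  rw [add_nsmul, add_self2]

/-- the numbers -/
theorem numbers (l x y : ℝ) (hl : 0 ≤ l) (hx : 0 ≤ x) (hy : 0 ≤ y) (h : y ≤ 3 * x) :
    (1 + y) * l * min (1 + y) (Real.log (2 + y) ^ 3 * Real.log (2 + l)) ≤
      81 * ((1 + x) * l * min (1 + x) (Real.log (2 + x) ^ 3 * Real.log (2 + l))) := by
  have h1 : 1 + y ≤ 3 * (1 + x) := by linarith
  have g1 : 0 ≤ Real.log (2 + y) := Real.log_nonneg (by linarith)
  have g2 : 0 ≤ Real.log (2 + x) := Real.log_nonneg (by linarith)
  have g3 : 0 ≤ Real.log (2 + l) := Real.log_nonneg (by linarith)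
  have h2 : Real.log (2 + y) ≤ 3 * Real.log (2 + x) := by
    have k1 : 2 + y ≤ (2 + x) ^ 3 := by nlinarith [sq_nonneg x, mul_nonneg hx (sq_nonneg x)]
    have k2 := Real.log_le_log (by linarith) k1
    rw [Real.log_pow] at k2
    exact_mod_cast k2
  have h3 : min (1 + y) (Real.log (2 + y) ^ 3 * Real.log (2 + l)) ≤
      27 * min (1 + x) (Real.log (2 + x) ^ 3 * Real.log (2 + l)) := by
    rw [mul_min_of_nonneg _ _ (by norm_num)]
    apply min_le_min
    · linarith
    · calc Real.log (2 + y) ^ 3 * Real.log (2 + l) ≤ (3 * Real.log (2 + x)) ^ 3 * Real.log (2 + l) := by gcongr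
        _ = _ := by ring
  have h4 : 0 ≤ min (1 + y) (Real.log (2 + y) ^ 3 * Real.log (2 + l)) := le_min (by linarith) (by positivity)
  calc (1 + y) * l * min (1 + y) (Real.log (2 + y) ^ 3 * Real.log (2 + l)) ≤
      (3 * (1 + x)) * l * (27 * min (1 + x) (Real.log (2 + x) ^ 3 * Real.log (2 + l))) := by gcongr
    _ = _ := by ring

/-- **Affine subspaces in `kA`.** -/
theorem result :
    ∃ C : ℝ, 0 < C ∧ ∀ n : ℕ, ∀ α : ℝ, 0 < α → α ≤ 1 → ∀ A : Finset (Fin n → ZMod 2),
      α * (2 : ℝ) ^ n ≤ (A.card : ℝ) → ∀ l : ℝ, l = Real.log (1 / α) → ∀ k : ℕ, 4 ≤ k →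
      ∃ (x : Fin n → ZMod 2) (V : Submodule (ZMod 2) (Fin n → ZMod 2)),
        (n : ℝ) - (Module.finrank (ZMod 2) V : ℝ) ≤
          C * ((1 + l / k) * l * min (1 + l / k) (Real.log (2 + l / k) ^ 3 * Real.log (2 + l))) ∧
        (∀ v ∈ V, x + v ∈ kSums A k) ∧ (Even k → x = 0) := by
  classical
  refine ⟨10 ^ 27 * 81, by positivity, ?_⟩
  intro n α hα0 hα1 A hA l hl k hk
  have hl0 : 0 ≤ l := by
    rw [hl]
    apply Real.log_nonneg
    rw [le_div_iff₀ hα0]
    linarith
  have hpow : (0 : ℝ) < (2 : ℝ) ^ n := by positivity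
  have hApos : (0 : ℝ) < A.card := lt_of_lt_of_le (by positivity) hA
  have hAne : A.Nonempty := by
    rw [← Finset.card_pos]
    exact_mod_cast hApos
  have hx0 : 0 ≤ l / k := by positivity
  have g2 : 0 ≤ Real.log (2 + l) := Real.log_nonneg (by linarith)
  have g3 : 0 ≤ Real.log (2 + l / k) := Real.log_nonneg (by linarith)
  have g4 : 0 ≤ min (1 + l / k) (Real.log (2 + l / k) ^ 3 * Real.log (2 + l)) := le_min (by linarith) (by positivity)
  have hsum : ∀ (i : ℕ) (z a : Fin n → ZMod 2), i ≤ k → a ∈ A → z ∈ i • A → (k - i) • a + z ∈ kSums A k := by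
    intro i z a hi ha hz
    apply mem_nsmul'
    obtain ⟨m, rfl⟩ : ∃ m, k = m + i := ⟨k - i, by omega⟩
    rw [add_nsmul, Nat.add_sub_cancel]
    exact Finset.add_mem_add (Finset.nsmul_mem_nsmul ha) hz
  obtain ⟨a, ha⟩ := hAne
  rcases lt_or_ge (1 / 2 : ℝ) α with hc | hc
  · have hfull : ∀ x : Fin n → ZMod 2, x ∈ A + A := fun x => full A (lt_of_lt_of_le (by
      apply mul_lt_mul_of_pos_right hc hpow) hA) x
    have e2 : (2 : ℕ) • A = A + A := two_nsmul A
    refine ⟨(k - 2) • a, ⊤, ?_, ?_, ?_⟩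
    · rw [finrank_top, Module.finrank_fin_fun, sub_self]
      positivity
    · intro v _
      exact hsum 2 v a (by omega) ha (by rw [e2]; exact hfull v)
    · intro hk2
      apply even_nsmul
      obtain ⟨i, rfl⟩ := hk2
      exact ⟨i - 1, by omega⟩
  · have hl1 : 0.69 ≤ l := by
      have h1 : (2 : ℝ) ≤ 1 / α := by
        rw [le_div_iff₀ hα0]
        linarith
      have h2 := Real.log_le_log (by norm_num) h1
      rw [← hl] at h2
      linarith [Real.log_two_gt_d9]
    have hcard : (Fintype.card (Fin n → ZMod 2) : ℝ) ≤ Real.exp l * A.card := by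
      rw [Fintype.card_fun, ZMod.card, Fintype.card_fin, hl, Real.exp_log (by positivity)]
      push_cast
      rw [div_mul_eq_mul_div, one_mul, le_div_iff₀ hα0]
      linarith
    obtain ⟨m, hm⟩ : ∃ m : ℕ, m = k / 2 := ⟨_, rfl⟩
    have hm2 : 2 ≤ m := by omega
    have hkm : k ≤ 3 * m := by omega
    have hmpos : (0 : ℝ) < m := by
      have : 0 < m := by omega
      exact_mod_cast this
    have hkpos : (0 : ℝ) < k := by
      have : 0 < k := by omega
      exact_mod_cast this
    obtain ⟨j, V, r, hj1, hj2, hr, hV, h4⟩ := mult A ⟨a, ha⟩ l hl1 hcard m hm2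
    refine ⟨(k - 2 * (j + 1)) • a, V, ?_, ?_, ?_⟩
    · refine (codim_of V r hV).trans (hr.trans ?_)
      have h5 : l / m ≤ 3 * (l / k) := by
        rw [mul_div_assoc', div_le_div_iff₀ hmpos hkpos]
        have : (k : ℝ) ≤ 3 * m := by exact_mod_cast hkm
        nlinarith
      rw [mul_assoc (10 ^ 27 : ℝ)]
      exact mul_le_mul_of_nonneg_left (numbers l (l / k) (l / m) hl0 hx0 (by positivity) h5) (by norm_num)
    · intro v hv
      obtain ⟨w₁, hw₁, w₂, hw₂, h6⟩ := h4 v hv
      apply hsum (2 * (j + 1)) v a (by omega) ha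
      have e : A + j • A = (j + 1) • A := by rw [succ_nsmul, add_comm]
      rw [e] at hw₁ hw₂
      rw [two_mul, add_nsmul, h6]
      exact Finset.add_mem_add hw₁ hw₂
    · intro hk2
      apply even_nsmul
      obtain ⟨i, rfl⟩ := hk2
      exact ⟨i - (j + 1), by omega⟩

end Pool.Agent.Results.MP_c6cae0_co.HigherSumsets
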