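import Mathlib

/-!
# The polynomial Bogolyubov conjecture for monotone sets, ample sets and sets with many cubes

For a basis of `𝔽₂ⁿ` and a set `A ⊆ 𝔽₂ⁿ` consider the family of the sets `S` of basis vectors such that `A` contains a
coset of the span of `S` (the sets which are strongly shattered by `A`). If this family has at least `α^M 2ⁿ` members,
then `A + A + A` contains an affine subspace of codimension at most `3 M log (1/α) / log (2 + √5)`. If `A` is closed
under replacing coordinates by zero, for some basis and some origin, or if `A` is ample (lopsided,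
shattering-extremal), then the family has at least `|A|` members. So the conjecture is true for these sets, with
`C = 3 / log (2 + √5) < 2.08`. They include the Hamming balls, which show that the conjecture is false for `A + A`.

Proof. Let `F, G, H` be families of subsets of `{1, …, n}` which are closed under taking subsets. By induction on `n`
there are members which cover all but `u` elements, where `(2 + √5)^u ≤ 8ⁿ / (|F| |G| |H|)`. (For `F = G = H` this is
equivalent to a theorem of Frankl on families which are 3-wise `t`-intersecting.) In the step the first element is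
given to the family for which the proportion `r` of the number of the members with this element to the number of
the members without it is the largest, if `r ≥ √5 - 2`, and to none of them otherwise; one uses `(1 + r)³ ≤ 8 r` in
the first case and `(2 + √5) (1 + r)³ ≤ 8` in the second one.
-/

set_option autoImplicit false
open scoped Pointwise

namespace Pool.Agent.Results.MP_c6cae0_co.MonotoneSets

/-- `F` is closed under replacing coordinates by zero. -/
def DownSet {n : ℕ} (F : Finset (Fin n → ZMod 2)) : Prop :=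
  ∀ x ∈ F, ∀ y : Fin n → ZMod 2, (∀ i, y i = 0 ∨ y i = x i) → y ∈ F

theorem zmod_two (c : ZMod 2) : ¬ c = 0 ↔ c = 1 := by
  revert c
  decide

/-- the elements with first coordinate `c` -/
def sl {n : ℕ} (F : Finset (Fin (n + 1) → ZMod 2)) (c : ZMod 2) : Finset (Fin n → ZMod 2) :=
  Finset.univ.filter fun x => (Fin.cons c x : Fin (n + 1) → ZMod 2) ∈ F

theorem mem_sl {n : ℕ} (F : Finset (Fin (n + 1) → ZMod 2)) (c : ZMod 2) (x : Fin n → ZMod 2) :
    x ∈ sl F c ↔ (Fin.cons c x : Fin (n + 1) → ZMod 2) ∈ F := by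
  unfold sl
  rw [Finset.mem_filter]
  exact ⟨fun h => h.2, fun h => ⟨Finset.mem_univ _, h⟩⟩

theorem card_sl {n : ℕ} (F : Finset (Fin (n + 1) → ZMod 2)) (c : ZMod 2) :
    (F.filter fun x => x 0 = c).card = (sl F c).card := by
  refine Finset.card_bij (fun x _ => Fin.tail x) ?_ ?_ ?_
  · intro x hx
    rw [Finset.mem_filter] at hx
    rw [mem_sl, ← hx.2, Fin.cons_self_tail]
    exact hx.1
  · intro x hx y hy hxy
    rw [Finset.mem_filter] at hx hy
    rw [← Fin.cons_self_tail x, ← Fin.cons_self_tail y, hxy, hx.2, hy.2]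
  · intro y hy
    rw [mem_sl] at hy
    refine ⟨Fin.cons c y, ?_, ?_⟩
    · rw [Finset.mem_filter]
      exact ⟨hy, Fin.cons_zero _ _⟩
    · exact Fin.tail_cons _ _

theorem card_split {n : ℕ} (F : Finset (Fin (n + 1) → ZMod 2)) : F.card = (sl F 0).card + (sl F 1).card := by
  rw [← card_sl, ← card_sl, ← Finset.card_filter_add_card_filter_not (s := F) (fun x => x 0 = 0)]
  congr 2
  ext x
  rw [Finset.mem_filter, Finset.mem_filter, zmod_two]

theorem down_sl {n : ℕ} {F : Finset (Fin (n + 1) → ZMod 2)} (h : DownSet F) (c : ZMod 2) : DownSet (sl F c) := by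
  intro x hx y hy
  rw [mem_sl] at hx ⊢
  refine h _ hx _ fun i => ?_
  refine Fin.cases ?_ (fun i => ?_) i
  · right
    rw [Fin.cons_zero, Fin.cons_zero]
  · rw [Fin.cons_succ, Fin.cons_succ]
    exact hy i

theorem sl_subset {n : ℕ} {F : Finset (Fin (n + 1) → ZMod 2)} (h : DownSet F) : sl F 1 ⊆ sl F 0 := by
  intro x hx
  rw [mem_sl] at hx ⊢
  refine h _ hx _ fun i => ?_
  refine Fin.cases ?_ (fun i => ?_) i
  · left
    rw [Fin.cons_zero]
  · right
    rw [Fin.cons_succ, Fin.cons_succ]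

theorem sl_nonempty {n : ℕ} {F : Finset (Fin (n + 1) → ZMod 2)} (h : DownSet F) (hF : F.Nonempty) :
    (sl F 0).Nonempty := by
  obtain ⟨x, hx⟩ := hF
  have h1 : Fin.tail x ∈ sl F (x 0) := by
    rw [mem_sl, Fin.cons_self_tail]
    exact hx
  by_cases h0 : x 0 = 0
  · rw [h0] at h1
    exact ⟨_, h1⟩
  · rw [(zmod_two _).1 h0] at h1
    exact ⟨_, sl_subset h h1⟩

/-- the number of the coordinates at which `a`, `b`, `c` are zero -/
def zeros {n : ℕ} (a b c : Fin n → ZMod 2) : ℕ :=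
  (Finset.univ.filter fun i => a i = 0 ∧ b i = 0 ∧ c i = 0).card

theorem zeros_cons {n : ℕ} (a b c : Fin n → ZMod 2) (x y z : ZMod 2) :
    zeros (Fin.cons x a : Fin (n + 1) → ZMod 2) (Fin.cons y b) (Fin.cons z c) =
      (if x = 0 ∧ y = 0 ∧ z = 0 then 1 else 0) + zeros a b c := by
  unfold zeros
  rw [Finset.card_filter, Finset.card_filter, Fin.sum_univ_succ]
  simp only [Fin.cons_zero, Fin.cons_succ]

/-- The number `2 + √5`. -/
noncomputable def phi : ℝ := 2 + Real.sqrt 5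

theorem sqrt_five : Real.sqrt 5 ^ 2 = 5 := Real.sq_sqrt (by norm_num)

theorem phi_pos : 0 < phi := by
  unfold phi
  positivity

/-- the numbers -/
theorem numbers (x y z : ℝ) (hx : 0 ≤ x) (hy : 0 ≤ y) (hz : 0 ≤ z) (hx1 : x ≤ 1) (hy1 : y ≤ 1) (hz1 : z ≤ 1) :
    phi * ((1 + x) * (1 + y) * (1 + z)) ≤ 8 ∨ (1 + x) * (1 + y) * (1 + z) ≤ 8 * x ∨
      (1 + x) * (1 + y) * (1 + z) ≤ 8 * y ∨ (1 + x) * (1 + y) * (1 + z) ≤ 8 * z := by
  have hs := sqrt_five
  have hs0 : 0 ≤ Real.sqrt 5 := Real.sqrt_nonneg 5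
  have hs2 : 2 ≤ Real.sqrt 5 := by
    rw [Real.le_sqrt (by norm_num) (by norm_num)]
    norm_num
  have key : ∀ m : ℝ, 0 ≤ m → m ≤ 1 → x ≤ m → y ≤ m → z ≤ m →
      phi * ((1 + x) * (1 + y) * (1 + z)) ≤ 8 ∨ (1 + x) * (1 + y) * (1 + z) ≤ 8 * m := by
    intro m hm hm1 h1 h2 h3
    have h4 : (1 + x) * (1 + y) * (1 + z) ≤ (1 + m) * (1 + m) * (1 + m) := by gcongr
    rcases le_total m (Real.sqrt 5 - 2) with h5 | h5
    · left
      have h6 : (1 + m) * (1 + m) * (1 + m) ≤
          (1 + (Real.sqrt 5 - 2)) * (1 + (Real.sqrt 5 - 2)) * (1 + (Real.sqrt 5 - 2)) := by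
        have h7 : 1 + m ≤ 1 + (Real.sqrt 5 - 2) := by linarith
        have h8 : 0 ≤ 1 + m := by linarith
        exact mul_le_mul (mul_le_mul h7 h7 h8 (by linarith)) h7 h8 (by nlinarith)
      have h9 : phi * ((1 + (Real.sqrt 5 - 2)) * (1 + (Real.sqrt 5 - 2)) * (1 + (Real.sqrt 5 - 2))) = 8 := by
        unfold phi
        have h10 : (2 + Real.sqrt 5) * ((1 + (Real.sqrt 5 - 2)) * (1 + (Real.sqrt 5 - 2)) *
            (1 + (Real.sqrt 5 - 2))) = Real.sqrt 5 ^ 2 * (Real.sqrt 5 ^ 2) - Real.sqrt 5 * Real.sqrt 5 ^ 2 -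
              3 * Real.sqrt 5 ^ 2 + 5 * Real.sqrt 5 - 2 := by ring
        rw [h10, hs]
        ring
      calc phi * ((1 + x) * (1 + y) * (1 + z)) ≤
          phi * ((1 + (Real.sqrt 5 - 2)) * (1 + (Real.sqrt 5 - 2)) * (1 + (Real.sqrt 5 - 2))) :=
            mul_le_mul_of_nonneg_left (h4.trans h6) phi_pos.le
        _ = 8 := h9
    · right
      have h6 : 0 ≤ m ^ 2 + 4 * m - 1 := by nlinarith
      have h7 : 0 ≤ (1 - m) * (m ^ 2 + 4 * m - 1) := mul_nonneg (by linarith) h6
      nlinarith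
  rcases le_total x y with h1 | h1
  · rcases le_total y z with h2 | h2
    · rcases key z hz hz1 (h1.trans h2) h2 le_rfl with h | h
      · exact Or.inl h
      · exact Or.inr (Or.inr (Or.inr h))
    · rcases key y hy hy1 h1 le_rfl h2 with h | h
      · exact Or.inl h
      · exact Or.inr (Or.inr (Or.inl h))
  · rcases le_total x z with h2 | h2
    · rcases key z hz hz1 h2 (h1.trans h2) le_rfl with h | h
      · exact Or.inl h
      · exact Or.inr (Or.inr (Or.inr h))
    · rcases key x hx hx1 le_rfl h1 h2 with h | h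
      · exact Or.inl h
      · exact Or.inr (Or.inl h)

theorem numbers_nat (f f' g g' h h' : ℝ) (hf0 : 0 < f) (hg0 : 0 < g) (hh0 : 0 < h) (hf0' : 0 ≤ f') (hg0' : 0 ≤ g')
    (hh0' : 0 ≤ h') (hf' : f' ≤ f) (hg' : g' ≤ g) (hh' : h' ≤ h) :
    phi * ((f + f') * (g + g') * (h + h')) ≤ 8 * (f * g * h) ∨
      (f + f') * (g + g') * (h + h') ≤ 8 * (f' * g * h) ∨
      (f + f') * (g + g') * (h + h') ≤ 8 * (f * g' * h) ∨ (f + f') * (g + g') * (h + h') ≤ 8 * (f * g * h') := by
  have hP : (0 : ℝ) < f * g * h := by positivity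
  have e0 : (f + f') * (g + g') * (h + h') =
      ((1 + f' / f) * (1 + g' / g) * (1 + h' / h)) * (f * g * h) := by
    field_simp
  have e1 : (8 : ℝ) * (f' * g * h) = (8 * (f' / f)) * (f * g * h) := by field_simp
  have e2 : (8 : ℝ) * (f * g' * h) = (8 * (g' / g)) * (f * g * h) := by field_simp
  have e3 : (8 : ℝ) * (f * g * h') = (8 * (h' / h)) * (f * g * h) := by field_simp
  rw [e1, e2, e3, e0]
  rcases numbers (f' / f) (g' / g) (h' / h) (by positivity) (by positivity) (by positivity)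
    (by rw [div_le_one hf0]; exact hf') (by rw [div_le_one hg0]; exact hg')
    (by rw [div_le_one hh0]; exact hh') with h1 | h1 | h1 | h1
  · left
    have h2 := mul_le_mul_of_nonneg_right h1 hP.le
    rw [mul_assoc] at h2
    exact h2
  · right; left
    exact mul_le_mul_of_nonneg_right h1 hP.le
  · right; right; left
    exact mul_le_mul_of_nonneg_right h1 hP.le
  · right; right; right
    exact mul_le_mul_of_nonneg_right h1 hP.le

/-- **Three elements which cover almost all coordinates.** -/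
theorem cover (n : ℕ) : ∀ F G H : Finset (Fin n → ZMod 2), DownSet F → DownSet G → DownSet H →
    F.Nonempty → G.Nonempty → H.Nonempty →
    ∃ a ∈ F, ∃ b ∈ G, ∃ c ∈ H, phi ^ zeros a b c * ((F.card : ℝ) * G.card * H.card) ≤ 8 ^ n := by
  induction n with
  | zero =>
    intro F G H _ _ _ hF hG hH
    obtain ⟨a, ha⟩ := hF
    obtain ⟨b, hb⟩ := hG
    obtain ⟨c, hc⟩ := hH
    refine ⟨a, ha, b, hb, c, hc, ?_⟩
    have h0 : ∀ F : Finset (Fin 0 → ZMod 2), (F.card : ℝ) ≤ 1 := by
      intro F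
      have := Finset.card_le_univ F
      have h2 : F.card ≤ 1 := by simpa using this
      exact_mod_cast h2
    have h1 : zeros a b c = 0 := by
      unfold zeros
      simp
    rw [h1, pow_zero, one_mul, pow_zero]
    calc (F.card : ℝ) * G.card * H.card ≤ 1 * 1 * 1 := by
          gcongr
          · exact h0 F
          · exact h0 G
          · exact h0 H
      _ = 1 := by norm_num
  | succ n ih =>
    intro F G H dF dG dH hF hG hH
    have f0 := sl_nonempty dF hF
    have g0 := sl_nonempty dG hG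
    have h0 := sl_nonempty dH hH
    have pF : (0 : ℝ) < (sl F 0).card := by exact_mod_cast f0.card_pos
    have pG : (0 : ℝ) < (sl G 0).card := by exact_mod_cast g0.card_pos
    have pH : (0 : ℝ) < (sl H 0).card := by exact_mod_cast h0.card_pos
    have cF : (F.card : ℝ) = (sl F 0).card + (sl F 1).card := by exact_mod_cast card_split F
    have cG : (G.card : ℝ) = (sl G 0).card + (sl G 1).card := by exact_mod_cast card_split G
    have cH : (H.card : ℝ) = (sl H 0).card + (sl H 1).card := by exact_mod_cast card_split H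
    rw [cF, cG, cH, pow_succ]
    have hpos : 0 < ((sl F 0).card + (sl F 1).card : ℝ) * ((sl G 0).card + (sl G 1).card) *
        ((sl H 0).card + (sl H 1).card) := by positivity
    have hphi : ∀ u : ℕ, 0 ≤ phi ^ u := fun u => pow_nonneg phi_pos.le u
    have hne : ∀ X : Finset (Fin n → ZMod 2), ¬ (X.card : ℝ) = 0 → X.Nonempty := by
      intro X hX
      rw [← Finset.card_pos]
      have : ¬ X.card = 0 := fun h => hX (by exact_mod_cast h)
      omega
    rcases numbers_nat _ _ _ _ _ _ pF pG pH (Nat.cast_nonneg _) (Nat.cast_nonneg _) (Nat.cast_nonneg _)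
      (Nat.cast_le.2 (Finset.card_le_card (sl_subset dF))) (Nat.cast_le.2 (Finset.card_le_card (sl_subset dG)))
      (Nat.cast_le.2 (Finset.card_le_card (sl_subset dH))) with h1 | h1 | h1 | h1
    · obtain ⟨a, ha, b, hb, c, hc, h⟩ := ih _ _ _ (down_sl dF 0) (down_sl dG 0) (down_sl dH 0) f0 g0 h0
      refine ⟨Fin.cons 0 a, (mem_sl _ _ _).1 ha, Fin.cons 0 b, (mem_sl _ _ _).1 hb, Fin.cons 0 c,
        (mem_sl _ _ _).1 hc, ?_⟩
      rw [zeros_cons, if_pos ⟨rfl, rfl, rfl⟩, pow_add, pow_one]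
      calc _ = phi ^ zeros a b c * (phi * (((sl F 0).card + (sl F 1).card) * ((sl G 0).card + (sl G 1).card) *
            ((sl H 0).card + (sl H 1).card))) := by ring
        _ ≤ phi ^ zeros a b c * (8 * ((sl F 0).card * (sl G 0).card * (sl H 0).card)) :=
            mul_le_mul_of_nonneg_left h1 (hphi _)
        _ = 8 * (phi ^ zeros a b c * ((sl F 0).card * (sl G 0).card * (sl H 0).card)) := by ring
        _ ≤ 8 * 8 ^ n := mul_le_mul_of_nonneg_left h (by norm_num)
        _ = _ := by ring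
    · have f1 : (sl F 1).Nonempty := by
        refine hne _ fun h2 => ?_
        rw [h2, zero_mul, zero_mul, mul_zero, ← h2] at h1
        exact absurd hpos (not_lt.2 (h1.trans h2.le))
      obtain ⟨a, ha, b, hb, c, hc, h⟩ := ih _ _ _ (down_sl dF 1) (down_sl dG 0) (down_sl dH 0) f1 g0 h0
      refine ⟨Fin.cons 1 a, (mem_sl _ _ _).1 ha, Fin.cons 0 b, (mem_sl _ _ _).1 hb, Fin.cons 0 c,
        (mem_sl _ _ _).1 hc, ?_⟩
      rw [zeros_cons, if_neg (by decide), zero_add]
      calc _ ≤ phi ^ zeros a b c * (8 * ((sl F 1).card * (sl G 0).card * (sl H 0).card)) :=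
            mul_le_mul_of_nonneg_left h1 (hphi _)
        _ = 8 * (phi ^ zeros a b c * ((sl F 1).card * (sl G 0).card * (sl H 0).card)) := by ring
        _ ≤ 8 * 8 ^ n := mul_le_mul_of_nonneg_left h (by norm_num)
        _ = _ := by ring
    · have g1 : (sl G 1).Nonempty := by
        refine hne _ fun h2 => ?_
        rw [h2, mul_zero, zero_mul, mul_zero, ← h2] at h1
        exact absurd hpos (not_lt.2 (h1.trans h2.le))
      obtain ⟨a, ha, b, hb, c, hc, h⟩ := ih _ _ _ (down_sl dF 0) (down_sl dG 1) (down_sl dH 0) f0 g1 h0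
      refine ⟨Fin.cons 0 a, (mem_sl _ _ _).1 ha, Fin.cons 1 b, (mem_sl _ _ _).1 hb, Fin.cons 0 c,
        (mem_sl _ _ _).1 hc, ?_⟩
      rw [zeros_cons, if_neg (by decide), zero_add]
      calc _ ≤ phi ^ zeros a b c * (8 * ((sl F 0).card * (sl G 1).card * (sl H 0).card)) :=
            mul_le_mul_of_nonneg_left h1 (hphi _)
        _ = 8 * (phi ^ zeros a b c * ((sl F 0).card * (sl G 1).card * (sl H 0).card)) := by ring
        _ ≤ 8 * 8 ^ n := mul_le_mul_of_nonneg_left h (by norm_num)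
        _ = _ := by ring
    · have h1' : (sl H 1).Nonempty := by
        refine hne _ fun h2 => ?_
        rw [h2, mul_zero, mul_zero, ← h2] at h1
        exact absurd hpos (not_lt.2 (h1.trans h2.le))
      obtain ⟨a, ha, b, hb, c, hc, h⟩ := ih _ _ _ (down_sl dF 0) (down_sl dG 0) (down_sl dH 1) f0 g0 h1'
      refine ⟨Fin.cons 0 a, (mem_sl _ _ _).1 ha, Fin.cons 0 b, (mem_sl _ _ _).1 hb, Fin.cons 1 c,
        (mem_sl _ _ _).1 hc, ?_⟩
      rw [zeros_cons, if_neg (by decide), zero_add]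
      calc _ ≤ phi ^ zeros a b c * (8 * ((sl F 0).card * (sl G 0).card * (sl H 1).card)) :=
            mul_le_mul_of_nonneg_left h1 (hphi _)
        _ = 8 * (phi ^ zeros a b c * ((sl F 0).card * (sl G 0).card * (sl H 1).card)) := by ring
        _ ≤ 8 * 8 ^ n := mul_le_mul_of_nonneg_left h (by norm_num)
        _ = _ := by ring

/-- `A` is closed under replacing coordinates by zero, for the coordinates given by `e` and the origin `x₀`. -/
def DownSetFor {n : ℕ} (e : (Fin n → ZMod 2) ≃ₗ[ZMod 2] (Fin n → ZMod 2)) (x₀ : Fin n → ZMod 2)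
    (A : Finset (Fin n → ZMod 2)) : Prop :=
  DownSet (A.image fun x => e (x + x₀))

/-- the vectors which are zero on a set of coordinates -/
def vanish {n : ℕ} (U : Finset (Fin n)) : Submodule (ZMod 2) (Fin n → ZMod 2) where
  carrier := {v | ∀ i ∈ U, v i = 0}
  add_mem' := by
    intro v w hv hw i hi
    rw [Pi.add_apply, hv i hi, hw i hi, add_zero]
  zero_mem' := fun i _ => rfl
  smul_mem' := by
    intro c v hv i hi
    rw [Pi.smul_apply, hv i hi, smul_zero]

theorem codim_vanish {n : ℕ} (U : Finset (Fin n)) : n ≤ U.card + Module.finrank (ZMod 2) (vanish U) := by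
  obtain ⟨f, hf⟩ : ∃ f : (Fin n → ZMod 2) →ₗ[ZMod 2] (U → ZMod 2), f = LinearMap.funLeft (ZMod 2) (ZMod 2) Subtype.val :=
    ⟨_, rfl⟩
  have h1 : LinearMap.ker f = vanish U := by
    ext v
    rw [LinearMap.mem_ker, hf]
    constructor
    · intro h i hi
      exact congrFun h ⟨i, hi⟩
    · intro h
      funext i
      exact h i.1 i.2
  have h2 := LinearMap.finrank_range_add_finrank_ker f
  have h3 : Module.finrank (ZMod 2) (LinearMap.range f) ≤ U.card := by
    refine (Submodule.finrank_le _).trans ?_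
    rw [Module.finrank_fintype_fun_eq_card, Fintype.card_coe]
  rw [h1, Module.finrank_fin_fun] at h2
  omega

theorem add_self2 {n : ℕ} (x : Fin n → ZMod 2) : x + x = 0 := by
  funext i
  exact CharTwo.add_self_eq_zero (x i)

/-- The vectors `x` such that, in the coordinates given by `e`, the set `A` contains a translate of the cube of all
vectors `v` with `v i = 0` or `v i = x i` for all `i`; they correspond to the sets which are strongly shattered by
`A`. -/
noncomputable def cubes {n : ℕ} (e : (Fin n → ZMod 2) ≃ₗ[ZMod 2] (Fin n → ZMod 2))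
    (A : Finset (Fin n → ZMod 2)) : Finset (Fin n → ZMod 2) :=
  open Classical in
  Finset.univ.filter fun x => ∃ y : Fin n → ZMod 2, ∀ v : Fin n → ZMod 2,
    (∀ i, v i = 0 ∨ v i = x i) → y + e.symm v ∈ A

theorem mem_cubes {n : ℕ} (e : (Fin n → ZMod 2) ≃ₗ[ZMod 2] (Fin n → ZMod 2)) (A : Finset (Fin n → ZMod 2))
    (x : Fin n → ZMod 2) : x ∈ cubes e A ↔ ∃ y : Fin n → ZMod 2, ∀ v : Fin n → ZMod 2,
      (∀ i, v i = 0 ∨ v i = x i) → y + e.symm v ∈ A := by
  unfold cubes
  rw [Finset.mem_filter]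
  exact ⟨fun h => h.2, fun h => ⟨Finset.mem_univ _, h⟩⟩

theorem down_cubes {n : ℕ} (e : (Fin n → ZMod 2) ≃ₗ[ZMod 2] (Fin n → ZMod 2)) (A : Finset (Fin n → ZMod 2)) :
    DownSet (cubes e A) := by
  intro x hx y hy
  rw [mem_cubes] at hx ⊢
  obtain ⟨z, hz⟩ := hx
  refine ⟨z, fun v hv => hz v fun i => ?_⟩
  rcases hv i with h | h
  · exact Or.inl h
  · rcases hy i with h2 | h2
    · exact Or.inl (h.trans h2)
    · exact Or.inr (h.trans h2)

theorem card_le_cubes {n : ℕ} {e : (Fin n → ZMod 2) ≃ₗ[ZMod 2] (Fin n → ZMod 2)} {x₀ : Fin n → ZMod 2}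
    {A : Finset (Fin n → ZMod 2)} (h : DownSetFor e x₀ A) : A.card ≤ (cubes e A).card := by
  classical
  have hinj : Function.Injective fun x : Fin n → ZMod 2 => e (x + x₀) := by
    intro x y hxy
    exact add_right_cancel (e.injective hxy)
  rw [← Finset.card_image_of_injective A hinj]
  apply Finset.card_le_card
  intro a ha
  rw [mem_cubes]
  refine ⟨x₀, fun v hv => ?_⟩
  have h1 := h a ha v hv
  rw [Finset.mem_image] at h1
  obtain ⟨b, hb, rfl⟩ := h1
  have h2 : x₀ + e.symm (e (b + x₀)) = b := by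
    rw [e.symm_apply_apply, add_comm b x₀, ← add_assoc, add_self2, zero_add]
  rw [h2]
  exact hb

/-- the vectors below one of three elements -/
theorem split {n : ℕ} (a b c v : Fin n → ZMod 2) (hv : ∀ i, a i = 0 → b i = 0 → c i = 0 → v i = 0) :
    ∃ x y z : Fin n → ZMod 2, (∀ i, x i = 0 ∨ x i = a i) ∧ (∀ i, y i = 0 ∨ y i = b i) ∧
      (∀ i, z i = 0 ∨ z i = c i) ∧ v = x + y + z := by
  classical
  have key : ∀ s t : ZMod 2, ¬ s = 0 → t = 0 ∨ t = s := by decide
  refine ⟨fun i => if a i = 0 then 0 else v i, fun i => if a i = 0 ∧ ¬ b i = 0 then v i else 0,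
    fun i => if a i = 0 ∧ b i = 0 ∧ ¬ c i = 0 then v i else 0, fun i => ?_, fun i => ?_, fun i => ?_, ?_⟩
  · by_cases h1 : a i = 0
    · left
      exact if_pos h1
    · have h2 : (fun i => if a i = 0 then 0 else v i) i = v i := if_neg h1
      rw [h2]
      exact key _ _ h1
  · by_cases h1 : a i = 0 ∧ ¬ b i = 0
    · have h2 : (fun i => if a i = 0 ∧ ¬ b i = 0 then v i else 0) i = v i := if_pos h1
      rw [h2]
      exact key _ _ h1.2
    · left
      exact if_neg h1
  · by_cases h1 : a i = 0 ∧ b i = 0 ∧ ¬ c i = 0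
    · have h2 : (fun i => if a i = 0 ∧ b i = 0 ∧ ¬ c i = 0 then v i else 0) i = v i := if_pos h1
      rw [h2]
      exact key _ _ h1.2.2
    · left
      exact if_neg h1
  · funext i
    rw [Pi.add_apply, Pi.add_apply]
    by_cases h1 : a i = 0
    · by_cases h2 : b i = 0
      · by_cases h3 : c i = 0
        · simp [h1, h2, h3, hv i h1 h2 h3]
        · simp [h1, h2, h3]
      · simp [h1, h2]
    · simp [h1]

/-- the theorem for three sets -/
theorem three {n : ℕ} (e : (Fin n → ZMod 2) ≃ₗ[ZMod 2] (Fin n → ZMod 2)) (A₁ A₂ A₃ : Finset (Fin n → ZMod 2))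
    (n₁ : (cubes e A₁).Nonempty) (n₂ : (cubes e A₂).Nonempty) (n₃ : (cubes e A₃).Nonempty) :
    ∃ (x : Fin n → ZMod 2) (V : Submodule (ZMod 2) (Fin n → ZMod 2)) (u : ℕ),
      n ≤ u + Module.finrank (ZMod 2) V ∧
      phi ^ u * (((cubes e A₁).card : ℝ) * (cubes e A₂).card * (cubes e A₃).card) ≤ 8 ^ n ∧
      ∀ v ∈ V, x + v ∈ A₁ + A₂ + A₃ := by
  classical
  obtain ⟨a, ha, b, hb, c, hc, h⟩ := cover n _ _ _ (down_cubes e A₁) (down_cubes e A₂) (down_cubes e A₃) n₁ n₂ n₃
  obtain ⟨U, hU⟩ : ∃ U : Finset (Fin n), U = Finset.univ.filter fun i => a i = 0 ∧ b i = 0 ∧ c i = 0 := ⟨_, rfl⟩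
  rw [mem_cubes] at ha hb hc
  obtain ⟨x₁, h₁⟩ := ha
  obtain ⟨x₂, h₂⟩ := hb
  obtain ⟨x₃, h₃⟩ := hc
  refine ⟨x₁ + x₂ + x₃, (vanish U).map e.symm.toLinearMap, zeros a b c, ?_, h, ?_⟩
  · have h4 : Module.finrank (ZMod 2) ((vanish U).map e.symm.toLinearMap) = Module.finrank (ZMod 2) (vanish U) :=
      (e.symm.submoduleMap (vanish U)).finrank_eq.symm
    rw [h4]
    have h5 := codim_vanish U
    have h6 : zeros a b c = U.card := by
      rw [hU]
      rfl
    rw [h6]
    exact h5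
  · intro v hv
    rw [Submodule.mem_map] at hv
    obtain ⟨w, hw, rfl⟩ := hv
    obtain ⟨x, y, z, hx, hy, hz, hxyz⟩ := split a b c w fun i g1 g2 g3 => hw i (by
      rw [hU, Finset.mem_filter]
      exact ⟨Finset.mem_univ _, g1, g2, g3⟩)
    have h7 : x₁ + x₂ + x₃ + e.symm.toLinearMap w = (x₁ + e.symm x) + (x₂ + e.symm y) + (x₃ + e.symm z) := by
      rw [hxyz]
      show x₁ + x₂ + x₃ + e.symm (x + y + z) = _
      rw [map_add, map_add]
      abel
    rw [h7]
    exact Finset.add_mem_add (Finset.add_mem_add (h₁ x hx) (h₂ y hy)) (h₃ z hz)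

/-- **The polynomial Bogolyubov conjecture for sets with many cubes, monotone sets and ample sets.** -/
theorem result :
    -- (1) three sets
    (∀ (n : ℕ) (e : (Fin n → ZMod 2) ≃ₗ[ZMod 2] (Fin n → ZMod 2)) (A₁ A₂ A₃ : Finset (Fin n → ZMod 2))
      (β₁ β₂ β₃ : ℝ), 0 < β₁ → 0 < β₂ → 0 < β₃ → β₁ * (2 : ℝ) ^ n ≤ (cubes e A₁).card →
      β₂ * (2 : ℝ) ^ n ≤ (cubes e A₂).card → β₃ * (2 : ℝ) ^ n ≤ (cubes e A₃).card →
      ∃ (x : Fin n → ZMod 2) (V : Submodule (ZMod 2) (Fin n → ZMod 2)),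
        (n : ℝ) - (Module.finrank (ZMod 2) V : ℝ) ≤ Real.log (1 / (β₁ * β₂ * β₃)) / Real.log phi ∧
        ∀ v ∈ V, x + v ∈ A₁ + A₂ + A₃) ∧
    -- (2) the conjecture for the sets with many cubes
    (∀ (n : ℕ) (α M : ℝ) (e : (Fin n → ZMod 2) ≃ₗ[ZMod 2] (Fin n → ZMod 2)) (A : Finset (Fin n → ZMod 2)), 0 < α →
      α ^ M * (2 : ℝ) ^ n ≤ (cubes e A).card →
      ∃ (x : Fin n → ZMod 2) (V : Submodule (ZMod 2) (Fin n → ZMod 2)),
        (n : ℝ) - (Module.finrank (ZMod 2) V : ℝ) ≤ 3 * M / Real.log phi * Real.log (1 / α) ∧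
        ∀ v ∈ V, x + v ∈ A + A + A) ∧
    -- (3) the conjecture for monotone sets and for ample sets
    (∀ (n : ℕ) (α : ℝ) (A : Finset (Fin n → ZMod 2)), 0 < α → α * (2 : ℝ) ^ n ≤ (A.card : ℝ) →
      (∃ (e : (Fin n → ZMod 2) ≃ₗ[ZMod 2] (Fin n → ZMod 2)) (x₀ : Fin n → ZMod 2), DownSetFor e x₀ A) ∨
        (∃ e : (Fin n → ZMod 2) ≃ₗ[ZMod 2] (Fin n → ZMod 2), (cubes e A).card = A.card) →
      ∃ (x : Fin n → ZMod 2) (V : Submodule (ZMod 2) (Fin n → ZMod 2)),
        (n : ℝ) - (Module.finrank (ZMod 2) V : ℝ) ≤ 3 / Real.log phi * Real.log (1 / α) ∧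
        ∀ v ∈ V, x + v ∈ A + A + A) := by
  classical
  have hphi1 : 1 < phi := by
    unfold phi
    have := Real.sqrt_nonneg 5
    linarith
  have hlog : 0 < Real.log phi := Real.log_pos hphi1
  have main : ∀ (n : ℕ) (e : (Fin n → ZMod 2) ≃ₗ[ZMod 2] (Fin n → ZMod 2)) (A₁ A₂ A₃ : Finset (Fin n → ZMod 2))
      (β₁ β₂ β₃ : ℝ), 0 < β₁ → 0 < β₂ → 0 < β₃ → β₁ * (2 : ℝ) ^ n ≤ (cubes e A₁).card →
      β₂ * (2 : ℝ) ^ n ≤ (cubes e A₂).card → β₃ * (2 : ℝ) ^ n ≤ (cubes e A₃).card →
      ∃ (x : Fin n → ZMod 2) (V : Submodule (ZMod 2) (Fin n → ZMod 2)),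
        (n : ℝ) - (Module.finrank (ZMod 2) V : ℝ) ≤ Real.log (1 / (β₁ * β₂ * β₃)) / Real.log phi ∧
        ∀ v ∈ V, x + v ∈ A₁ + A₂ + A₃ := by
    intro n e A₁ A₂ A₃ β₁ β₂ β₃ p₁ p₂ p₃ d₁ d₂ d₃
    have hpow : (0 : ℝ) < (2 : ℝ) ^ n := by positivity
    have q₁ : (0 : ℝ) < (cubes e A₁).card := lt_of_lt_of_le (by positivity) d₁
    have q₂ : (0 : ℝ) < (cubes e A₂).card := lt_of_lt_of_le (by positivity) d₂
    have q₃ : (0 : ℝ) < (cubes e A₃).card := lt_of_lt_of_le (by positivity) d₃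
    obtain ⟨x, V, u, g1, g5, g3⟩ := three e A₁ A₂ A₃
      (Finset.card_pos.1 (by exact_mod_cast q₁)) (Finset.card_pos.1 (by exact_mod_cast q₂))
      (Finset.card_pos.1 (by exact_mod_cast q₃))
    refine ⟨x, V, ?_, g3⟩
    have g4 : (n : ℝ) - (Module.finrank (ZMod 2) V : ℝ) ≤ u := by
      have : (n : ℝ) ≤ u + (Module.finrank (ZMod 2) V : ℝ) := by exact_mod_cast g1
      linarith
    refine g4.trans ?_
    have hpu : 0 < phi ^ u := pow_pos phi_pos u
    have g6 : phi ^ u * ((β₁ * 2 ^ n) * (β₂ * 2 ^ n) * (β₃ * 2 ^ n)) ≤ 8 ^ n := by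
      refine le_trans ?_ g5
      gcongr
    have g7 : (8 : ℝ) ^ n = 2 ^ n * 2 ^ n * 2 ^ n := by
      rw [← mul_pow, ← mul_pow]
      norm_num
    have g8 : phi ^ u * (β₁ * β₂ * β₃) ≤ 1 := by
      rw [g7] at g6
      have g9 : ((2 : ℝ) ^ n * 2 ^ n * 2 ^ n) * (phi ^ u * (β₁ * β₂ * β₃)) ≤
          ((2 : ℝ) ^ n * 2 ^ n * 2 ^ n) * 1 := by
        calc _ = phi ^ u * ((β₁ * 2 ^ n) * (β₂ * 2 ^ n) * (β₃ * 2 ^ n)) := by ring
          _ ≤ _ := g6
          _ = _ := by ring
      exact le_of_mul_le_mul_left g9 (by positivity)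
    have g10 : phi ^ u ≤ 1 / (β₁ * β₂ * β₃) := by
      rw [le_div_iff₀ (by positivity)]
      exact g8
    have g11 := Real.log_le_log hpu g10
    rw [Real.log_pow] at g11
    rw [le_div_iff₀ hlog]
    exact g11
  have main2 : ∀ (n : ℕ) (α M : ℝ) (e : (Fin n → ZMod 2) ≃ₗ[ZMod 2] (Fin n → ZMod 2))
      (A : Finset (Fin n → ZMod 2)), 0 < α → α ^ M * (2 : ℝ) ^ n ≤ (cubes e A).card →
      ∃ (x : Fin n → ZMod 2) (V : Submodule (ZMod 2) (Fin n → ZMod 2)),
        (n : ℝ) - (Module.finrank (ZMod 2) V : ℝ) ≤ 3 * M / Real.log phi * Real.log (1 / α) ∧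
        ∀ v ∈ V, x + v ∈ A + A + A := by
    intro n α M e A hα hd
    have hαM : 0 < α ^ M := Real.rpow_pos_of_pos hα M
    obtain ⟨x, V, h1, h2⟩ := main n e A A A (α ^ M) (α ^ M) (α ^ M) hαM hαM hαM hd hd hd
    refine ⟨x, V, h1.trans (le_of_eq ?_), h2⟩
    have h3 : Real.log (1 / (α ^ M * α ^ M * α ^ M)) = 3 * M * Real.log (1 / α) := by
      rw [one_div, one_div, Real.log_inv, Real.log_inv, Real.log_mul (by positivity) (by positivity),
        Real.log_mul (by positivity) (by positivity), Real.log_rpow hα]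
      ring
    rw [h3]
    field_simp
  refine ⟨main, main2, ?_⟩
  intro n α A hα hA hcase
  have h1 : ∃ e : (Fin n → ZMod 2) ≃ₗ[ZMod 2] (Fin n → ZMod 2), A.card ≤ (cubes e A).card := by
    rcases hcase with ⟨e, x₀, h⟩ | ⟨e, h⟩
    · exact ⟨e, card_le_cubes h⟩
    · exact ⟨e, h.ge⟩
  obtain ⟨e, he⟩ := h1
  have he' : (A.card : ℝ) ≤ (cubes e A).card := by exact_mod_cast he
  obtain ⟨x, V, h2, h3⟩ := main2 n α 1 e A hα (by
    rw [Real.rpow_one]
    exact hA.trans he')
  refine ⟨x, V, ?_, h3⟩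
  rw [mul_one] at h2
  exact h2

end Pool.Agent.Results.MP_c6cae0_co.MonotoneSets
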