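import Pool.Agent.H89.F2.Model

/-!
# Subspaces of codimension `ℓ² (log ℓ)^O(1)` in `4A`, and almost all of a coset in `A + A`

Let `A ⊆ 𝔽₂ⁿ` have density at least `α`, and let `ℓ = log (1/α)`. For every `η > 0` there is a subspace `V` of codimension
at most `C ℓ² (log (2 + ℓ))⁴`, `C` depending on `η` only, such that `V ⊆ 4A` and such that `A + A` contains all but a
proportion `η` of a coset of `V`. If `|A + A| ≤ K |A|`, `K ≥ 2`, then the same holds with a subspace `V` such that
`|V| ≥ exp (- C (log K)² (log (2 + log K))⁴) |A|`.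

The bounds of Sanders are `C ℓ⁴` and `exp (- C (log K)⁴)`; an argument of Konyagin, described by Sanders, replaces the
exponent `4` for `4A` by `3 + o(1)`.

Proof. The sampling argument of Croot and Sisask is run for the uniform measure of a set `P` and a set `S` of
translations, with the growth of the Shannon entropy of `u_P * u_S` in place of the growth of sets. The sample is used to
control a level set `P' = {z : P_(y ∈ P) (y + z ∈ A + A) ≥ θ}`: the level `θ` is chosen such that the level sets grow by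
a factor `e^(O(b/K))` only in an interval of length `1/K` around `θ`; then for `n ≥ C K² (b/K + log b)` a set `T` of
density `exp (-2 n H) / 4` moves all but a small proportion of `P'` into a set of size `e^(O(b/K)) |P'|`, where `H` is the
growth of the entropy in the step before. In the `j`-th double step `K = 2^j`, and the product `n H` is `O(b² log b)` in
all steps: the entropies decrease as the numbers of the samples increase. After `O(log b)` steps a set `T` of density
`exp (- b² (log b)^O(1))` moves at most the proportion `η` of a level set `P'` of level `θ ≥ 1 - η` out of `P'`. Chang's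
theorem for `T` and the positivity of the Fourier transform of `1_(P') * 1_(-P')` give the subspace. For sets of small
doubling one takes a maximal subspace `H` which meets `12A` in `0` only, and applies the result to the image of `A`
in `𝔽₂ⁿ / H`.
-/

set_option autoImplicit false
open scoped Pointwise

namespace Pool.Agent.Results.MP_c6cae0_co.SquareOfTheLogarithm

open Pool.Agent.H89.F2

/-- All but a proportion `η` of the coset `t + V` is in `W`, for some `t`. -/
def AlmostContainsCoset {n : ℕ} (η : ℝ) (W : Finset (Fin n → ZMod 2)) (V : Submodule (ZMod 2) (Fin n → ZMod 2)) :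
    Prop :=
  ∃ t : Fin n → ZMod 2, (1 - η) * ((V : Set (Fin n → ZMod 2)).ncard : ℝ) ≤
    ({v : Fin n → ZMod 2 | v ∈ V ∧ t + v ∈ W}.ncard : ℝ)

/-- a small number -/
theorem small_eta (η : ℝ) (hη : 0 < η) : ∃ η' : ℝ, 0 < η' ∧ η' < 1 / 4 ∧ 5 * η' ≤ η := by
  refine ⟨min η 1 / 5, by positivity, ?_, ?_⟩
  · have := min_le_right η 1
    linarith
  · have := min_le_left η 1
    linarith

theorem almost_of {n : ℕ} (η η' : ℝ) (h0 : η' ≤ η) (W : Finset (Fin n → ZMod 2))
    (V : Submodule (ZMod 2) (Fin n → ZMod 2)) (t : Fin n → ZMod 2)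
    (h : (1 - η') * (Nat.card V : ℝ) ≤ (Nat.card {v : V // t + v ∈ W} : ℝ)) : AlmostContainsCoset η W V := by
  classical
  refine ⟨t, ?_⟩
  have e1 : (V : Set (Fin n → ZMod 2)).ncard = Nat.card V := rfl
  have e2 : ({v : Fin n → ZMod 2 | v ∈ V ∧ t + v ∈ W}.ncard) = Nat.card {v : V // t + v ∈ W} := by
    have h1 : {v : Fin n → ZMod 2 | v ∈ V ∧ t + v ∈ W} = Subtype.val '' {v : V | t + v ∈ W} := by
      ext v
      constructor
      · rintro ⟨h2, h3⟩
        exact ⟨⟨v, h2⟩, h3, rfl⟩
      · rintro ⟨w, hw, rfl⟩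
        exact ⟨w.2, hw⟩
    rw [h1, Set.ncard_image_of_injective _ Subtype.val_injective]
    rfl
  rw [e1, e2]
  refine le_trans ?_ h
  apply mul_le_mul_of_nonneg_right _ (Nat.cast_nonneg _)
  linarith

theorem card_sub {n : ℕ} (V : Submodule (ZMod 2) (Fin n → ZMod 2)) :
    Nat.card V = 2 ^ Module.finrank (ZMod 2) V := by
  have h := Module.natCard_eq_pow_finrank (K := ZMod 2) (V := V)
  rw [h, Nat.card_eq_fintype_card, ZMod.card]

theorem codim_of {n : ℕ} (V : Submodule (ZMod 2) (Fin n → ZMod 2)) (r : ℕ)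
    (h : Fintype.card (Fin n → ZMod 2) ≤ 2 ^ r * Nat.card V) :
    (n : ℝ) - (Module.finrank (ZMod 2) V : ℝ) ≤ r := by
  rw [card_sub, Fintype.card_fun, ZMod.card, Fintype.card_fin, ← pow_add] at h
  have h1 := (Nat.pow_le_pow_iff_right (by norm_num)).1 h
  have h2 : (n : ℝ) ≤ r + Module.finrank (ZMod 2) V := by exact_mod_cast h1
  linarith

/-- more than half of the group -/
theorem full {n : ℕ} (A : Finset (Fin n → ZMod 2)) (h : (1 / 2 : ℝ) * (2 : ℝ) ^ n < A.card) (x : Fin n → ZMod 2) :
    x ∈ A + A := by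
  classical
  have h1 : ¬ Disjoint A (A.image fun a => x + a) := by
    intro hd
    have h2 := Finset.card_union_of_disjoint hd
    rw [Finset.card_image_of_injective _ (add_right_injective x)] at h2
    have h3 := Finset.card_le_univ (A ∪ A.image fun a => x + a)
    rw [h2, Fintype.card_fun, ZMod.card, Fintype.card_fin] at h3
    have h4 : ((A.card : ℝ) + A.card) ≤ (2 : ℝ) ^ n := by exact_mod_cast h3
    linarith
  rw [Finset.not_disjoint_iff] at h1
  obtain ⟨a, ha, ha'⟩ := h1
  rw [Finset.mem_image] at ha'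
  obtain ⟨b, hb, hab⟩ := ha'
  rw [Finset.mem_add]
  refine ⟨a, ha, b, hb, ?_⟩
  rw [← hab, add_assoc, add_self2, add_zero]

/-- the numbers for small doubling -/
theorem numbers (k : ℝ) (hk : 0.69 ≤ k) :
    (1 + 12 * k) ^ 2 * Real.log (2 + 12 * k) ^ 4 ≤ 50000 * (k ^ 2 * Real.log (2 + k) ^ 4) := by
  have h1 : 1 + 12 * k ≤ 13.5 * k := by linarith
  have g1 : 0 ≤ Real.log (2 + 12 * k) := Real.log_nonneg (by linarith)
  have g2 : 0 ≤ Real.log (2 + k) := Real.log_nonneg (by linarith)
  have h2 : Real.log (2 + 12 * k) ≤ 4 * Real.log (2 + k) := by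
    have k1 : 2 + 12 * k ≤ (2 + k) ^ 4 := by nlinarith [sq_nonneg k, sq_nonneg (k ^ 2), mul_nonneg (show 0 ≤ k by linarith) (sq_nonneg k)]
    have k2 := Real.log_le_log (by linarith) k1
    rw [Real.log_pow] at k2
    exact_mod_cast k2
  calc (1 + 12 * k) ^ 2 * Real.log (2 + 12 * k) ^ 4 ≤ (13.5 * k) ^ 2 * (4 * Real.log (2 + k)) ^ 4 := by gcongr
    _ = 46656 * (k ^ 2 * Real.log (2 + k) ^ 4) := by ring
    _ ≤ _ := by
        apply mul_le_mul_of_nonneg_right (by norm_num)
        positivity

/-- **`4A` contains a subspace of codimension `ℓ² (log ℓ)^O(1)`, and `A + A` contains almost all of a coset of it; the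
same for sets of small doubling.** -/
theorem result :
    ∀ η : ℝ, 0 < η → ∃ C : ℝ, 0 < C ∧
      -- (1) sets of density at least `α`
      (∀ n : ℕ, ∀ α : ℝ, 0 < α → α ≤ 1 → ∀ A : Finset (Fin n → ZMod 2), α * (2 : ℝ) ^ n ≤ (A.card : ℝ) →
        ∃ V : Submodule (ZMod 2) (Fin n → ZMod 2),
          (n : ℝ) - (Module.finrank (ZMod 2) V : ℝ) ≤
            C * (Real.log (1 / α) ^ 2 * Real.log (2 + Real.log (1 / α)) ^ 4) ∧
          (∀ v ∈ V, v ∈ A + A + A + A) ∧ AlmostContainsCoset η (A + A) V) ∧
      -- (2) sets of small doubling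
      (∀ n : ℕ, ∀ K : ℝ, 2 ≤ K → ∀ A : Finset (Fin n → ZMod 2), A.Nonempty → ((A + A).card : ℝ) ≤ K * (A.card : ℝ) →
        ∃ V : Submodule (ZMod 2) (Fin n → ZMod 2),
          Real.exp (-(C * (Real.log K ^ 2 * Real.log (2 + Real.log K) ^ 4))) * (A.card : ℝ) ≤
            ((V : Set (Fin n → ZMod 2)).ncard : ℝ) ∧
          (∀ v ∈ V, v ∈ A + A + A + A) ∧ AlmostContainsCoset η (A + A) V) := by
  classical
  intro η hη
  obtain ⟨η', e1, e2, e3⟩ := small_eta η hη
  refine ⟨50000 * (10 ^ 18 / η' ^ 8), by positivity, ?_, ?_⟩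
  · intro n α hα0 hα1 A hA
    obtain ⟨l, hl⟩ : ∃ l : ℝ, l = Real.log (1 / α) := ⟨_, rfl⟩
    rw [← hl]
    have hl0 : 0 ≤ l := by
      rw [hl]
      apply Real.log_nonneg
      rw [le_div_iff₀ hα0]
      linarith
    have hpow : (0 : ℝ) < (2 : ℝ) ^ n := by positivity
    have hApos : (0 : ℝ) < A.card := lt_of_lt_of_le (by positivity) hA
    have hAne : A.Nonempty := by
      rw [← Finset.card_pos]
      exact_mod_cast hApos
    have g2 : 0 ≤ Real.log (2 + l) := Real.log_nonneg (by linarith)
    rcases lt_or_ge (1 / 2 : ℝ) α with hc | hc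
    · -- more than half
      have hfull : ∀ x : Fin n → ZMod 2, x ∈ A + A := fun x => full A (lt_of_lt_of_le (by
        apply mul_lt_mul_of_pos_right hc hpow) hA) x
      refine ⟨⊤, ?_, ?_, ?_⟩
      · rw [finrank_top, Module.finrank_fin_fun, sub_self]
        positivity
      · intro v _
        obtain ⟨a, ha⟩ := hAne
        have : v = v + a + a := by rw [add_assoc, add_self2, add_zero]
        rw [this]
        exact Finset.add_mem_add (Finset.add_mem_add (hfull v) ha) ha
      · refine ⟨0, ?_⟩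
        have h1 : {v : Fin n → ZMod 2 | v ∈ (⊤ : Submodule (ZMod 2) (Fin n → ZMod 2)) ∧ 0 + v ∈ A + A} =
            ((⊤ : Submodule (ZMod 2) (Fin n → ZMod 2)) : Set (Fin n → ZMod 2)) := by
          ext v
          constructor
          · intro _
            exact Submodule.mem_top
          · intro _
            exact ⟨Submodule.mem_top, hfull _⟩
        rw [h1]
        have h2 : (0 : ℝ) ≤ (((⊤ : Submodule (ZMod 2) (Fin n → ZMod 2)) : Set (Fin n → ZMod 2)).ncard : ℝ) :=
          Nat.cast_nonneg _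
        nlinarith
    · have hl1 : 0.69 ≤ l := by
        have h1 : (2 : ℝ) ≤ 1 / α := by
          rw [le_div_iff₀ hα0]
          linarith
        have h2 := Real.log_le_log (by norm_num) h1
        rw [← hl] at h2
        linarith [Real.log_two_gt_d9]
      have hcard : (Fintype.card (Fin n → ZMod 2) : ℝ) ≤ Real.exp l * A.card := by
        rw [Fintype.card_fun, ZMod.card, Fintype.card_fin, hl, Real.exp_log (by positivity)]
        push_cast
        rw [div_mul_eq_mul_div, one_mul, le_div_iff₀ hα0]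
        linarith
      obtain ⟨V, r, hr, hV, h4, t, ht⟩ := dense A hAne η' e1 e2 l hl0 hcard
      refine ⟨V, ?_, ?_, almost_of η (5 * η') e3 (A + A) V t ht⟩
      · refine (codim_of V r hV).trans (hr.trans ?_)
        have h5 : 1 + l ≤ 2.5 * l := by linarith
        calc 10 ^ 18 / η' ^ 8 * ((1 + l) ^ 2 * Real.log (2 + l) ^ 4) ≤
            10 ^ 18 / η' ^ 8 * ((2.5 * l) ^ 2 * Real.log (2 + l) ^ 4) := by gcongr
          _ = 6.25 * (10 ^ 18 / η' ^ 8) * (l ^ 2 * Real.log (2 + l) ^ 4) := by ring
          _ ≤ _ := by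
              gcongr
              norm_num
      · intro v hv
        obtain ⟨a, ha, b, hb, c, hc, d, hd, rfl⟩ := h4 v hv
        exact Finset.add_mem_add (Finset.add_mem_add (Finset.add_mem_add ha hb) hc) hd
  · intro n K hK A hA hAA
    obtain ⟨k, hk⟩ : ∃ k : ℝ, k = Real.log K := ⟨_, rfl⟩
    rw [← hk]
    have hk1 : 0.69 ≤ k := by
      have h2 := Real.log_le_log (by norm_num) hK
      rw [← hk] at h2
      linarith [Real.log_two_gt_d9]
    have hKe : K = Real.exp k := by rw [hk, Real.exp_log (by linarith)]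
    obtain ⟨V, r, hr, hV, h4, t, ht⟩ := doubling2 A hA η' e1 e2 k (by linarith) (by rw [← hKe]; exact hAA)
    refine ⟨V, ?_, ?_, almost_of η (5 * η') e3 (A + A) V t ht⟩
    · have h5 : (A.card : ℝ) ≤ 2 ^ r * (Nat.card V : ℝ) := by exact_mod_cast hV
      have h6 : (r : ℝ) ≤ 50000 * (10 ^ 18 / η' ^ 8) * (k ^ 2 * Real.log (2 + k) ^ 4) := by
        refine hr.trans ?_
        calc 10 ^ 18 / η' ^ 8 * ((1 + 12 * k) ^ 2 * Real.log (2 + 12 * k) ^ 4) ≤
            10 ^ 18 / η' ^ 8 * (50000 * (k ^ 2 * Real.log (2 + k) ^ 4)) :=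
              mul_le_mul_of_nonneg_left (numbers k hk1) (by positivity)
          _ = _ := by ring
      have h7 : (2 : ℝ) ^ r ≤ Real.exp (50000 * (10 ^ 18 / η' ^ 8) * (k ^ 2 * Real.log (2 + k) ^ 4)) := by
        calc (2 : ℝ) ^ r ≤ Real.exp 1 ^ r := by
              apply pow_le_pow_left₀ (by norm_num)
              have := Real.add_one_le_exp 1
              linarith
          _ = Real.exp r := by rw [← Real.exp_nat_mul, mul_one]
          _ ≤ _ := Real.exp_le_exp.2 h6
      have e5 : (V : Set (Fin n → ZMod 2)).ncard = Nat.card V := rfl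
      rw [e5, Real.exp_neg, inv_mul_le_iff₀ (Real.exp_pos _)]
      exact h5.trans (mul_le_mul_of_nonneg_right h7 (Nat.cast_nonneg _))
    · intro v hv
      obtain ⟨a, ha, b, hb, c, hc, d, hd, rfl⟩ := h4 v hv
      exact Finset.add_mem_add (Finset.add_mem_add (Finset.add_mem_add ha hb) hc) hd

end Pool.Agent.Results.MP_c6cae0_co.SquareOfTheLogarithm
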